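import Pool.Agent.Y535.PEG.Rel

/-! Floors of angles along paths that avoid a ray. -/

set_option autoImplicit false
open Set Topology

namespace Pool.Agent.U333.Peg

open Pool.Agent.Y535.PEG

/-- a continuous function that avoids `a + 2 π ℤ` -/
theorem floor_avoid {X : Type*} [TopologicalSpace X] {V : Set X} (hV : IsPreconnected V) {f : X → ℝ}
    (hf : ContinuousOn f V) {a : ℝ} (h : ∀ z ∈ V, ∀ n : ℤ, f z ≠ a + n * (2 * Real.pi)) {z w : X}
    (hz : z ∈ V) (hw : w ∈ V) : ⌊(f z - a) / (2 * Real.pi)⌋ = ⌊(f w - a) / (2 * Real.pi)⌋ := by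
  have hπ : 0 < 2 * Real.pi := by positivity
  have key : ∀ {z w : X}, z ∈ V → w ∈ V →
      ¬ ⌊(f z - a) / (2 * Real.pi)⌋ < ⌊(f w - a) / (2 * Real.pi)⌋ := by
    intro z w hz hw hlt
    have h1 : f z - a < ⌊(f w - a) / (2 * Real.pi)⌋ * (2 * Real.pi) := by
      have := Int.floor_lt.1 hlt
      rwa [div_lt_iff₀ hπ] at this
    have h2 : ⌊(f w - a) / (2 * Real.pi)⌋ * (2 * Real.pi) ≤ f w - a := by
      have := Int.floor_le ((f w - a) / (2 * Real.pi))
      rwa [le_div_iff₀ hπ] at this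
    obtain ⟨x, hx, hx0⟩ := hV.intermediate_value hz hw hf
      (show (a + ⌊(f w - a) / (2 * Real.pi)⌋ * (2 * Real.pi) : ℝ) ∈ Icc (f z) (f w) from
        ⟨by linarith, by linarith⟩)
    exact h x hx _ hx0
  rcases lt_trichotomy ⌊(f z - a) / (2 * Real.pi)⌋ ⌊(f w - a) / (2 * Real.pi)⌋ with h | h | h
  · exact absurd h (key hz hw)
  · exact h
  · exact absurd h (key hw hz)

/-- every angle is near a multiple of the full turn -/
theorem red (x : ℝ) : ∃ (j : ℤ) (y : ℝ), x = y + j * (2 * Real.pi) ∧ -Real.pi < y ∧ y ≤ Real.pi := by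
  have hπ := Real.pi_pos
  refine ⟨⌈(x - Real.pi) / (2 * Real.pi)⌉, x - ⌈(x - Real.pi) / (2 * Real.pi)⌉ * (2 * Real.pi),
    by ring, ?_, ?_⟩
  · have := Int.ceil_lt_add_one ((x - Real.pi) / (2 * Real.pi))
    have h2 : ((⌈(x - Real.pi) / (2 * Real.pi)⌉ : ℝ) - 1) * (2 * Real.pi) < x - Real.pi := by
      rw [← lt_div_iff₀ (by positivity)]; linarith
    linarith
  · have := Int.le_ceil ((x - Real.pi) / (2 * Real.pi))
    rw [div_le_iff₀ (by positivity)] at this
    linarith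

theorem cosj (y : ℝ) (j : ℤ) : Real.cos (y + j * (2 * Real.pi)) = Real.cos y :=
  Real.cos_add_int_mul_two_pi y j

theorem sinj (y : ℝ) (j : ℤ) : Real.sin (y + j * (2 * Real.pi)) = Real.sin y :=
  Real.sin_add_int_mul_two_pi y j

theorem flj {y a : ℝ} (j : ℤ) (h1 : a ≤ y) (h2 : y < a + 2 * Real.pi) :
    ⌊(y + j * (2 * Real.pi) - a) / (2 * Real.pi)⌋ = j := by
  have hπ := Real.pi_pos
  rw [Int.floor_eq_iff]
  constructor
  · rw [le_div_iff₀ (by positivity)]; linarith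
  · rw [div_lt_iff₀ (by positivity)]; linarith

/-- an angle in the open first quadrant -/
theorem quad {x : ℝ} (hc : 0 < Real.cos x) (hs : 0 < Real.sin x) :
    ∃ j : ℤ, ⌊x / Real.pi⌋ = 2 * j ∧ ⌊(x - (-(Real.pi / 2))) / (2 * Real.pi)⌋ = j ∧
      ⌊(x - (-Real.pi)) / (2 * Real.pi)⌋ = j := by
  have hπ := Real.pi_pos
  obtain ⟨j, y, rfl, h1, h2⟩ := red x
  rw [cosj] at hc
  rw [sinj] at hs
  have y0 : 0 < y := by
    by_contra h
    push Not at h
    have := Real.sin_nonpos_of_nonpos_of_neg_pi_le h h1.le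
    linarith
  have y1 : y < Real.pi / 2 := by
    by_contra h
    push Not at h
    have := Real.cos_nonpos_of_pi_div_two_le_of_le h (by linarith)
    linarith
  refine ⟨j, ?_, flj j (by linarith) (by linarith), flj j (by linarith) (by linarith)⟩
  rw [Int.floor_eq_iff]
  push_cast
  constructor
  · rw [le_div_iff₀ hπ]; linarith
  · rw [div_lt_iff₀ hπ]; linarith

/-- an angle that is not in the third quadrant -/
theorem three {x : ℝ} (h : 0 < Real.cos x ∨ 0 < Real.sin x) :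
    ⌊(x - (-(Real.pi / 2))) / (2 * Real.pi)⌋ = ⌊(x - (-Real.pi)) / (2 * Real.pi)⌋ := by
  have hπ := Real.pi_pos
  obtain ⟨j, y, rfl, h1, h2⟩ := red x
  rw [cosj, sinj] at h
  have y0 : -(Real.pi / 2) < y := by
    by_contra hn
    push Not at hn
    rcases h with h | h
    · have h3 : Real.cos (-y) ≤ 0 :=
        Real.cos_nonpos_of_pi_div_two_le_of_le (by linarith) (by linarith)
      rw [Real.cos_neg] at h3
      linarith
    · have := Real.sin_nonpos_of_nonpos_of_neg_pi_le (x := y) (by linarith) h1.le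
      linarith
  have y1 : y < Real.pi := by
    rcases lt_or_eq_of_le h2 with h3 | h3
    · exact h3
    · exfalso
      rw [h3, Real.cos_pi, Real.sin_pi] at h
      rcases h with h | h <;> linarith
  rw [flj j y0.le (by linarith), flj j h1.le (by linarith)]

theorem avoid1 {x : ℝ} (h : Real.cos x = 0 → 0 < Real.sin x) (n : ℤ) :
    x ≠ -(Real.pi / 2) + n * (2 * Real.pi) := by
  rintro rfl
  rw [cosj, sinj, Real.cos_neg, Real.cos_pi_div_two, Real.sin_neg, Real.sin_pi_div_two] at h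
  have := h rfl
  linarith

theorem avoid2 {x : ℝ} (h : Real.sin x = 0 → 0 < Real.cos x) (n : ℤ) :
    x ≠ -Real.pi + n * (2 * Real.pi) := by
  rintro rfl
  rw [cosj, sinj, Real.cos_neg, Real.cos_pi, Real.sin_neg, Real.sin_pi] at h
  have := h (by simp)
  linarith

/-- the first path avoids the ray `(0, -1)`, the second one the ray `(-1, 0)` -/
theorem two_paths1 {a b c d : ℝ} (hab : a ≤ b) (hcd : c ≤ d) {φ ψ : ℝ → ℝ}
    (hφ : ContinuousOn φ (Icc a b)) (hψ : ContinuousOn ψ (Icc c d))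
    (h1 : ∀ y ∈ Icc a b, Real.cos (φ y) = 0 → 0 < Real.sin (φ y))
    (h2 : ∀ y ∈ Icc c d, Real.sin (ψ y) = 0 → 0 < Real.cos (ψ y))
    (hc : φ b = ψ c) (h3 : 0 < Real.cos (φ b) ∨ 0 < Real.sin (φ b))
    (s1 : 0 < Real.cos (φ a) ∧ 0 < Real.sin (φ a)) (s2 : 0 < Real.cos (ψ d) ∧ 0 < Real.sin (ψ d)) :
    ⌊φ a / Real.pi⌋ = ⌊ψ d / Real.pi⌋ := by
  obtain ⟨j, j1, j2, -⟩ := quad s1.1 s1.2
  obtain ⟨k, k1, -, k3⟩ := quad s2.1 s2.2
  have e1 := floor_avoid isPreconnected_Icc hφ (fun z hz n => avoid1 (h1 z hz) n)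
    (left_mem_Icc.2 hab) (right_mem_Icc.2 hab)
  have e2 := floor_avoid isPreconnected_Icc hψ (fun z hz n => avoid2 (h2 z hz) n)
    (left_mem_Icc.2 hcd) (right_mem_Icc.2 hcd)
  have e3 := three h3
  rw [j1, k1]
  have : j = k := by rw [← j2, ← k3, e1, e3, ← e2, hc]
  rw [this]

/-- the same with a sign -/
theorem two_paths {a b c d σ : ℝ} (hσ : σ = 1 ∨ σ = -1) (hab : a ≤ b) (hcd : c ≤ d) {φ ψ : ℝ → ℝ}
    (hφ : ContinuousOn φ (Icc a b)) (hψ : ContinuousOn ψ (Icc c d))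
    (h1 : ∀ y ∈ Icc a b, Real.cos (φ y) = 0 → 0 < σ * Real.sin (φ y))
    (h2 : ∀ y ∈ Icc c d, Real.sin (ψ y) = 0 → 0 < σ * Real.cos (ψ y))
    (hc : φ b = ψ c) (h3 : 0 < σ * Real.cos (φ b) ∨ 0 < σ * Real.sin (φ b))
    (s1 : 0 < σ * Real.cos (φ a) ∧ 0 < σ * Real.sin (φ a))
    (s2 : 0 < σ * Real.cos (ψ d) ∧ 0 < σ * Real.sin (ψ d)) :
    ⌊φ a / Real.pi⌋ = ⌊ψ d / Real.pi⌋ := by
  rcases hσ with rfl | rfl
  · simp only [one_mul] at h1 h2 h3 s1 s2
    exact two_paths1 hab hcd hφ hψ h1 h2 hc h3 s1 s2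
  · have e := two_paths1 (φ := fun y => φ y + Real.pi) (ψ := fun y => ψ y + Real.pi) hab hcd
      (hφ.add continuousOn_const) (hψ.add continuousOn_const)
      (fun y hy h => by
        rw [Real.cos_add_pi, neg_eq_zero] at h
        have := h1 y hy h
        rw [Real.sin_add_pi]; linarith)
      (fun y hy h => by
        rw [Real.sin_add_pi, neg_eq_zero] at h
        have := h2 y hy h
        rw [Real.cos_add_pi]; linarith)
      (by rw [hc])
      (by
        rcases h3 with h | h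
        · left; rw [Real.cos_add_pi]; linarith
        · right; rw [Real.sin_add_pi]; linarith)
      ⟨by rw [Real.cos_add_pi]; linarith [s1.1], by rw [Real.sin_add_pi]; linarith [s1.2]⟩
      ⟨by rw [Real.cos_add_pi]; linarith [s2.1], by rw [Real.sin_add_pi]; linarith [s2.2]⟩
    simp only [add_div, div_self Real.pi_ne_zero, Int.floor_add_one] at e
    linarith

end Pool.Agent.U333.Peg
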