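import Pool.Agent.U333.Peg.Fold
import Pool.Agent.Y535.PEG.Sim

/-! A fold of a simple closed curve is a wedge of two graphs. -/

set_option autoImplicit false
open Set Topology Complex

namespace Pool.Agent.U333.Peg

open Pool.Agent.H763R2.An Pool.Agent.Y535.PEG
open Pool.Agent.H763R2.Dm (NoSq)
open Pool.Agent.Y450.Stab

variable {f : ℝ → ℂ} {T B : ℝ → ℝ} {t ρ κ r R : ℝ}

theorem graph (cf : Continuous f) {a b κ r : ℝ} (hab : a ≤ b) (κ0 : 0 ≤ κ) (r0 : 0 < r)
    (h : ∀ x y, a ≤ x → x < y → y ≤ b → (f x).re < (f y).re ∧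
      |(f y).im - (f x).im| ≤ κ * ((f y).re - (f x).re))
    (hb : f b = 0) (ha : (f a).re ≤ -r) :
    ∃ T : ℝ → ℝ, Lip κ T ∧ (∀ x, 0 ≤ x → T x = 0) ∧
      (∀ s, a ≤ s → s ≤ b → -r ≤ (f s).re → (f s).im = T (f s).re) ∧
      ∀ x, -r ≤ x → x ≤ 0 → ∃ s, a ≤ s ∧ s ≤ b ∧ f s = ⟨x, T x⟩ := by
  obtain ⟨cl, hcl⟩ : ∃ cl : ℝ → ℝ, ∀ x, cl x = max (-r) (min x 0) := ⟨_, fun _ => rfl⟩
  have cl1 : ∀ x, -r ≤ cl x := fun x => by rw [hcl]; exact le_max_left _ _
  have cl2 : ∀ x, cl x ≤ 0 := fun x => by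
    rw [hcl]; exact max_le (by linarith) (min_le_right _ _)
  have cl3 : ∀ x, -r ≤ x → x ≤ 0 → cl x = x := fun x h1 h2 => by
    rw [hcl, min_eq_left h2, max_eq_right h1]
  have cl4 : ∀ x, 0 ≤ x → cl x = 0 := fun x h1 => by
    rw [hcl, min_eq_right h1, max_eq_right (by linarith)]
  have cl5 : ∀ x y, |cl x - cl y| ≤ |x - y| := fun x y => by
    rw [hcl, hcl]
    have h1 := abs_max_sub_max_le_max (-r) (min x 0) (-r) (min y 0)
    have h2 := abs_min_sub_min_le_max x 0 y 0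
    rw [sub_self, abs_zero, max_eq_right (abs_nonneg (min x 0 - min y 0))] at h1
    rw [sub_self, abs_zero, max_eq_left (abs_nonneg (x - y))] at h2
    exact h1.trans h2
  have ex : ∀ x, ∃ s, a ≤ s ∧ s ≤ b ∧ (f s).re = cl x := fun x => by
    obtain ⟨s, ⟨h1, h2⟩, h3⟩ := intermediate_value_Icc hab (f := fun s => (f s).re) (by fun_prop)
      (show cl x ∈ Icc _ _ from ⟨ha.trans (cl1 x), by rw [hb]; simpa using cl2 x⟩)
    exact ⟨s, h1, h2, h3⟩
  choose u hu1 hu2 hu3 using ex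
  have inj : ∀ s s', a ≤ s → s ≤ b → a ≤ s' → s' ≤ b → (f s).re = (f s').re → s = s' := by
    intro s s' h1 h2 h3 h4 h5
    rcases lt_trichotomy s s' with h6 | h6 | h6
    · exact absurd h5 (h s s' h1 h6 h4).1.ne
    · exact h6
    · exact absurd h5 (h s' s h3 h6 h2).1.ne'
  refine ⟨fun x => (f (u x)).im, ?_, ?_, ?_, ?_⟩
  · intro x y
    have key : |(f (u x)).im - (f (u y)).im| ≤ κ * |cl x - cl y| := by
      rcases lt_trichotomy (u x) (u y) with h6 | h6 | h6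
      · obtain ⟨h7, h8⟩ := h _ _ (hu1 x) h6 (hu2 y)
        rw [hu3, hu3] at h7 h8
        rw [abs_sub_comm, abs_sub_comm (cl x), abs_of_pos (by linarith : 0 < cl y - cl x)]
        exact h8
      · rw [h6, sub_self, abs_zero]
        exact mul_nonneg κ0 (abs_nonneg _)
      · obtain ⟨h7, h8⟩ := h _ _ (hu1 y) h6 (hu2 x)
        rw [hu3, hu3] at h7 h8
        rw [abs_of_pos (by linarith : 0 < cl x - cl y)]
        exact h8
    exact key.trans (mul_le_mul_of_nonneg_left (cl5 x y) κ0)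
  · intro x hx
    have : u x = b := inj _ _ (hu1 x) (hu2 x) hab le_rfl (by rw [hu3, cl4 x hx, hb]; simp)
    simp only
    rw [this, hb]; simp
  · intro s h1 h2 h3
    have h4 : (f s).re ≤ 0 := by
      rcases lt_or_eq_of_le h2 with h5 | h'
      · have := (h s b h1 h5 le_rfl).1
        rw [hb] at this; simpa using this.le
      · rw [h', hb]; simp
    have : u (f s).re = s := inj _ _ (hu1 _) (hu2 _) h1 h2 (by rw [hu3, cl3 _ h3 h4])
    simp only
    rw [this]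
  · intro x h1 h2
    refine ⟨u x, hu1 x, hu2 x, ?_⟩
    apply Complex.ext
    · simp only; rw [hu3, cl3 x h1 h2]
    · rfl

/-- the two sides of a fold are graphs that meet only at the fold -/
theorem exWd (L : Loop f) (J : Inj f) (F : Fd f t ρ κ) : ∃ T B r R,
    (Wd (range f) T B κ r R ∨ Wd (range f) B T κ r R) ∧
    (∀ s, t - ρ ≤ s → s ≤ t → -r ≤ (f s).re → (f s).im = T (f s).re) ∧
    (∀ s, t ≤ s → s ≤ t + ρ → -r ≤ (f s).re → (f s).im = B (f s).re) ∧
    (f (t - ρ)).re ≤ -r ∧ (f (t + ρ)).re ≤ -r := by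
  have cf := L.cont
  have κ0 := F.κ0
  have κ1 := F.κ1
  have ρ0 := F.ρ0
  have ρ1 := F.ρ1
  have ft := F.z
  have hl : (f (t - ρ)).re < 0 := by
    have := (F.left (t - ρ) t le_rfl (by linarith) le_rfl).1
    rw [ft] at this; simpa using this
  have hr : (f (t + ρ)).re < 0 := by
    have := (F.right t (t + ρ) le_rfl (by linarith) le_rfl).1
    rw [ft] at this; simpa using this
  obtain ⟨r, r0, rl, rr⟩ : ∃ r > 0, (f (t - ρ)).re ≤ -r ∧ (f (t + ρ)).re ≤ -r :=
    ⟨min (-(f (t - ρ)).re) (-(f (t + ρ)).re), lt_min (by linarith) (by linarith),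
      by linarith [min_le_left (-(f (t - ρ)).re) (-(f (t + ρ)).re)],
      by linarith [min_le_right (-(f (t - ρ)).re) (-(f (t + ρ)).re)]⟩
  obtain ⟨T, hT, T0, eT, mT⟩ := graph cf (a := t - ρ) (b := t) (by linarith) κ0 r0
    F.left ft rl
  obtain ⟨B, hB, B0, eB, mB⟩ := graph (f := fun s => f (-s)) (by fun_prop) (a := -(t + ρ))
    (b := -t) (by linarith) κ0 r0 (fun x y h1 h2 h3 =>
      F.right (-y) (-x) (by linarith) (by linarith) (by linarith)) (by simpa using ft)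
      (by simpa using rr)
  have eB' : ∀ s, t ≤ s → s ≤ t + ρ → -r ≤ (f s).re → (f s).im = B (f s).re := by
    intro s h1 h2 h3
    have := eB (-s) (by linarith) (by linarith) (by simpa using h3)
    simpa using this
  have mB' : ∀ x, -r ≤ x → x ≤ 0 → ∃ s, t ≤ s ∧ s ≤ t + ρ ∧ f s = ⟨x, B x⟩ := by
    intro x h1 h2
    obtain ⟨s, h3, h4, h5⟩ := mB x h1 h2
    exact ⟨-s, by linarith, by linarith, h5⟩
  obtain ⟨ρn, hρn, hn⟩ := near_par L J ρ0
  obtain ⟨R, R0, Rr, Rn⟩ : ∃ R > 0, R ≤ r ∧ R ≤ ρn / 2 :=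
    ⟨min r (ρn / 2), by positivity, min_le_left _ _, min_le_right _ _⟩
  have loc : ∀ z ∈ range f, |z.re| < R → |z.im| < R →
      z.re ≤ 0 ∧ (z.im = T z.re ∨ z.im = B z.re) := by
    rintro _ ⟨s, rfl⟩ h1 h2
    have h3 : ‖f s - f t‖ < ρn := by
      rw [ft, sub_zero]
      exact (norm_le_abs_re_add_abs_im _).trans_lt (by linarith)
    obtain ⟨n, e, he, hs⟩ := hn s t h3
    have h4 : f s = f (t + e) := by rw [hs, L.per_int]
    rw [h4] at h1 h2 ⊢
    rw [abs_lt] at he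
    have h5 := (abs_lt.1 h1).1
    rcases le_total e 0 with h6 | h6
    · refine ⟨?_, Or.inl (eT _ (by linarith) (by linarith) (by linarith))⟩
      rcases lt_or_eq_of_le h6 with h7 | h7
      · have := (F.left (t + e) t (by linarith) (by linarith) le_rfl).1
        rw [ft] at this; simpa using this.le
      · rw [h7, add_zero, ft]; simp
    · refine ⟨?_, Or.inr (eB' _ (by linarith) (by linarith) (by linarith))⟩
      rcases lt_or_eq_of_le h6 with h7 | h7
      · have := (F.right t (t + e) le_rfl (by linarith) (by linarith)).1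
        rw [ft] at this; simpa using this.le
      · rw [← h7, add_zero, ft]; simp
  have ne : ∀ x ∈ Ico (-r) 0, T x - B x ≠ 0 := by
    intro x hx h
    obtain ⟨s, h1, h2, h3⟩ := mT x hx.1 hx.2.le
    obtain ⟨s', h4, h5, h6⟩ := mB' x hx.1 hx.2.le
    have h7 : f s = f s' := by rw [h3, h6, sub_eq_zero.1 h]
    have h8 : s ≠ t := by
      rintro rfl
      rw [ft] at h3
      have := congrArg Complex.re h3
      simp at this
      linarith [hx.2]
    exact J s s' (by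
      rcases lt_or_eq_of_le h2 with h9 | h9
      · linarith
      · exact absurd h9 h8) (by linarith) h7
  have tS : ∀ x, -r ≤ x → x ≤ 0 → (⟨x, T x⟩ : ℂ) ∈ range f := fun x h1 h2 => by
    obtain ⟨s, -, -, h3⟩ := mT x h1 h2
    exact ⟨s, h3⟩
  have bS : ∀ x, -r ≤ x → x ≤ 0 → (⟨x, B x⟩ : ℂ) ∈ range f := fun x h1 h2 => by
    obtain ⟨s, -, -, h3⟩ := mB' x h1 h2
    exact ⟨s, h3⟩
  have cTB : ContinuousOn (fun x => T x - B x) (Ico (-r) 0) := (hT.cont.sub hB.cont).continuousOn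
  refine ⟨T, B, r, R, ?_, eT, eB', rl, rr⟩
  rcases lt_or_gt_of_ne (ne (-r) ⟨le_rfl, by linarith⟩) with h0 | h0
  · right
    refine ⟨hB, hT, κ0, κ1, r0, R0, Rr, B0, T0, fun x h1 h2 => ?_, bS, tS, fun z hz h1 h2 => ?_⟩
    · by_contra h
      push Not at h
      obtain ⟨y, hy, hy0⟩ := isPreconnected_Ico.intermediate_value
        (show -r ∈ Ico (-r) 0 from ⟨le_rfl, by linarith⟩) (show x ∈ Ico (-r) 0 from ⟨h1, h2⟩)
        cTB (show (0:ℝ) ∈ Icc _ _ from ⟨h0.le, by linarith⟩)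
      exact ne y hy hy0
    · obtain ⟨a1, a2⟩ := loc z hz h1 h2
      exact ⟨a1, a2.symm⟩
  · left
    refine ⟨hT, hB, κ0, κ1, r0, R0, Rr, T0, B0, fun x h1 h2 => ?_, tS, bS, loc⟩
    by_contra h
    push Not at h
    obtain ⟨y, hy, hy0⟩ := isPreconnected_Ico.intermediate_value
      (show x ∈ Ico (-r) 0 from ⟨h1, h2⟩) (show -r ∈ Ico (-r) 0 from ⟨le_rfl, by linarith⟩)
      cTB (show (0:ℝ) ∈ Icc _ _ from ⟨by linarith, h0.le⟩)
    exact ne y hy hy0

end Pool.Agent.U333.Peg
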