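import Pool.Agent.U333.Peg.Wd
import Pool.Agent.U333.Peg.Angs

/-! The number of half turns on the two sides of a fold. -/

set_option autoImplicit false
open Set Topology Complex

namespace Pool.Agent.U333.Peg

open Pool.Agent.H763R2.An Pool.Agent.Y535.PEG Pool.Agent.W675.Peg
open Pool.Agent.H763R2.Dm (NoSq)
open Pool.Agent.Y450.Stab

/-- two graphs of Lipschitz constant less than one over the negative half line, one before and one
after the origin -/
structure Fd (f : ℝ → ℂ) (t ρ κ : ℝ) : Prop where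
  ρ0 : 0 < ρ
  ρ1 : ρ ≤ 1 / 4
  κ0 : 0 ≤ κ
  κ1 : κ < 1
  z : f t = 0
  left : ∀ x y, t - ρ ≤ x → x < y → y ≤ t → (f x).re < (f y).re ∧
    |(f y).im - (f x).im| ≤ κ * ((f y).re - (f x).re)
  right : ∀ x y, t ≤ x → x < y → y ≤ t + ρ → (f y).re < (f x).re ∧
    |(f x).im - (f y).im| ≤ κ * ((f x).re - (f y).re)

variable {f : ℝ → ℂ} {T B : ℝ → ℝ} {t ρ κ r R : ℝ} {M : ℂ → ℝ} {θ : ℝ → ℝ → ℝ} {g : ℤ}

theorem mkI (a b c d : ℝ) : (⟨a, b⟩ : ℂ) + I * (⟨c, d⟩ - ⟨a, b⟩) = ⟨a - (d - b), b + (c - a)⟩ := by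
  apply Complex.ext <;> simp <;> ring

theorem mkI' (a b c d : ℝ) : (⟨c, d⟩ : ℂ) + I * (⟨c, d⟩ - ⟨a, b⟩) = ⟨c - (d - b), d + (c - a)⟩ := by
  apply Complex.ext <;> simp <;> ring

theorem fold1 (F : Fd f t ρ κ) (cf : Continuous f) (W : Wd (range f) T B κ r R)
    (e1 : ∀ s, t - ρ ≤ s → s ≤ t → -r ≤ (f s).re → (f s).im = T (f s).re)
    (e2 : ∀ s, t ≤ s → s ≤ t + ρ → -r ≤ (f s).re → (f s).im = B (f s).re)
    (hl : (f (t - ρ)).re ≤ -r) (hr : (f (t + ρ)).re ≤ -r) (nosq : NoSq (range f))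
    (hM : Continuous M) (h0 : ∀ z, M z = 0 → z ∈ range f) (A : Ang f M θ g) :
    ∃ u, t - ρ < u ∧ u < t ∧ ∃ v, t < v ∧ v < t + ρ ∧ ∀ k k', KL θ u k → KL θ v k' → k = k' := by
  have R0 := W.R0
  have r0 := W.r0
  have Rr := W.Rr
  have κ0 := F.κ0
  have κ1 := F.κ1
  have ρ0 := F.ρ0
  have ρ1 := F.ρ1
  have ft := F.z
  obtain ⟨σ, hσ, hs⟩ := W.sign hM h0
  obtain ⟨r2, hr2, r21, r22, r23⟩ : ∃ r2 > 0, r2 ≤ r1 κ r ∧ r2 ≤ R / 6 ∧ r2 < r := by
    refine ⟨min (r1 κ r) (R / 6), lt_min W.r1_pos (by linarith), min_le_left _ _,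
      min_le_right _ _, ?_⟩
    exact lt_of_le_of_lt (min_le_right _ _) (by linarith)
  have hTc := W.hT.cont
  have hBc := W.hB.cont
  obtain ⟨X, hX, hmax⟩ := isCompact_Icc.exists_isMaxOn (s := Icc (-r2) 0) ⟨0, by constructor <;> linarith⟩
    (hTc.sub hBc).continuousOn
  have hX0 : X < 0 := by
    refine lt_of_le_of_ne hX.2 fun h => ?_
    have h1 := hmax (show -r2 ∈ Icc (-r2) 0 from ⟨le_rfl, by linarith⟩)
    simp only [mem_ofPred_eq, Pi.sub_apply] at h1
    rw [h, W.T0 0 le_rfl, W.B0 0 le_rfl] at h1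
    have := W.TB (-r2) (by linarith) (by linarith)
    linarith
  have hTB := W.TB X (by linarith [hX.1]) hX0
  -- the two points over `X`
  obtain ⟨u, ⟨hu1, hu2⟩, hu⟩ := intermediate_value_Icc (a := t - ρ) (b := t) (by linarith)
    (f := fun s => (f s).re) (by fun_prop) (show X ∈ Icc _ _ from
      ⟨by linarith [hX.1], by rw [ft]; simpa using hX0.le⟩)
  obtain ⟨v, ⟨hv1, hv2⟩, hv⟩ := intermediate_value_Icc' (a := t) (b := t + ρ) (by linarith)
    (f := fun s => (f s).re) (by fun_prop) (show X ∈ Icc _ _ from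
      ⟨by linarith [hX.1], by rw [ft]; simpa using hX0.le⟩)
  simp only at hu hv
  have hu3 : u < t := by
    refine lt_of_le_of_ne hu2 fun h => ?_
    rw [h, ft] at hu; simp at hu; linarith
  have hv3 : t < v := by
    refine lt_of_le_of_ne hv1 fun h => ?_
    rw [← h, ft] at hv; simp at hv; linarith
  have hu4 : t - ρ < u := by
    refine lt_of_le_of_ne hu1 fun h => ?_
    rw [← h] at hu; linarith [hX.1]
  have hv4 : v < t + ρ := by
    refine lt_of_le_of_ne hv2 fun h => ?_
    rw [h] at hv; linarith [hX.1]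
  have fu : f u = ⟨X, T X⟩ := by
    apply Complex.ext
    · exact hu
    · rw [e1 u hu1 hu2 (by rw [hu]; linarith [hX.1]), hu]
  have fv : f v = ⟨X, B X⟩ := by
    apply Complex.ext
    · exact hv
    · rw [e2 v hv1 hv2 (by rw [hv]; linarith [hX.1]), hv]
  have b1 : ∀ x, -r2 ≤ x → x ≤ 0 → -r2 ≤ T x ∧ T x ≤ r2 := by
    intro x h1 h2
    have := abs_le.1 (W.abs_T h2)
    constructor <;> nlinarith
  have b2 : ∀ x, -r2 ≤ x → x ≤ 0 → -r2 ≤ B x ∧ B x ≤ r2 := by
    intro x h1 h2
    have := abs_le.1 (W.abs_B h2)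
    constructor <;> nlinarith
  obtain ⟨bX1, bX2⟩ := b1 X hX.1 hX0.le
  obtain ⟨bX3, bX4⟩ := b2 X hX.1 hX0.le
  -- points on the two sides
  have P1 : ∀ y, u ≤ y → y ≤ t → ∃ p, 0 ≤ p ∧ (u < y → 0 < p) ∧ X + p ≤ 0 ∧
      f y = ⟨X + p, T (X + p)⟩ := by
    intro y h1 h2
    have a1 : X ≤ (f y).re := by
      rcases lt_or_eq_of_le h1 with h | h
      · rw [← hu]; exact (F.left u y hu1 h h2).1.le
      · rw [← h, hu]
    have a2 : (f y).re ≤ 0 := by
      rcases lt_or_eq_of_le h2 with h | h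
      · have := (F.left y t (by linarith) h le_rfl).1
        rw [ft] at this; simpa using this.le
      · rw [h, ft]; simp
    refine ⟨(f y).re - X, by linarith, fun h => ?_, by linarith, ?_⟩
    · have := (F.left u y hu1 h h2).1
      linarith
    · rw [add_sub_cancel]
      apply Complex.ext
      · rfl
      · exact e1 y (by linarith) h2 (by linarith [hX.1])
  have P2 : ∀ y, t ≤ y → y ≤ v → ∃ p, 0 ≤ p ∧ (y < v → 0 < p) ∧ X + p ≤ 0 ∧
      f y = ⟨X + p, B (X + p)⟩ := by
    intro y h1 h2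
    have a1 : X ≤ (f y).re := by
      rcases lt_or_eq_of_le h2 with h | h
      · rw [← hv]; exact (F.right y v h1 h hv2).1.le
      · rw [h, hv]
    have a2 : (f y).re ≤ 0 := by
      rcases lt_or_eq_of_le h1 with h | h
      · have := (F.right t y le_rfl h (by linarith)).1
        rw [ft] at this; simpa using this.le
      · rw [← h, ft]; simp
    refine ⟨(f y).re - X, by linarith, fun h => ?_, by linarith, ?_⟩
    · have := (F.right y v h1 h hv2).1
      linarith
    · rw [add_sub_cancel]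
      apply Complex.ext
      · rfl
      · exact e2 y h1 (by linarith) (by linarith [hX.1])
  -- claim 1
  have C1 : ∀ y, u < y → y ≤ t → 0 < σ * M (DD f u y) ∧ 0 < σ * M (CC f u y) := by
    intro y h1 h2
    obtain ⟨p, p0, p1, p2, hp⟩ := P1 y h1.le h2
    have p1 := p1 h1
    rw [DD_eq, CC_eq, hp, fu, mkI, mkI']
    obtain ⟨q1, q2⟩ := b1 (X + p) (by linarith [hX.1]) p2
    have t1 := abs_le.1 (W.hT (X + p) X)
    rw [show X + p - X = p by ring, abs_of_pos p1] at t1
    have t2 := W.hT (X - (T (X + p) - T X)) X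
    have t3 := W.hT (X + p - (T (X + p) - T X)) (X + p)
    rw [show X - (T (X + p) - T X) - X = -(T (X + p) - T X) by ring, abs_neg] at t2
    rw [show X + p - (T (X + p) - T X) - (X + p) = -(T (X + p) - T X) by ring, abs_neg] at t3
    have t4 : |T (X + p) - T X| ≤ κ * p := abs_le.2 t1
    have t5 : κ * |T (X + p) - T X| ≤ κ * (κ * p) := mul_le_mul_of_nonneg_left t4 κ0
    have t0 : κ * p ≤ p := by nlinarith
    have t6 : κ * (κ * p) < p := by nlinarith
    have t7 := (abs_le.1 t2).2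
    have t8 := (abs_le.1 t3).2
    have := hX.1
    constructor
    · refine hs _ ?_ ?_ (Or.inl ?_)
      · simp only; rw [abs_lt]; constructor <;> linarith
      · simp only; rw [abs_lt]; constructor <;> linarith
      · simp only; linarith
    · refine hs _ ?_ ?_ (Or.inl ?_)
      · simp only; rw [abs_lt]; constructor <;> linarith
      · simp only; rw [abs_lt]; constructor <;> linarith
      · simp only; linarith
  have C1' : ∀ x, t ≤ x → x < v → 0 < σ * M (DD f x v) ∧ 0 < σ * M (CC f x v) := by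
    intro y h1 h2
    obtain ⟨p, p0, p1, p2, hp⟩ := P2 y h1 h2.le
    have p1 := p1 h2
    rw [DD_eq, CC_eq, hp, fv, mkI, mkI']
    obtain ⟨q1, q2⟩ := b2 (X + p) (by linarith [hX.1]) p2
    have t1 := abs_le.1 (W.hB X (X + p))
    rw [show X - (X + p) = -p by ring, abs_neg, abs_of_pos p1] at t1
    have t2 := W.hB (X - (B X - B (X + p))) X
    have t3 := W.hB (X + p - (B X - B (X + p))) (X + p)
    rw [show X - (B X - B (X + p)) - X = -(B X - B (X + p)) by ring, abs_neg] at t2
    rw [show X + p - (B X - B (X + p)) - (X + p) = -(B X - B (X + p)) by ring, abs_neg] at t3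
    have t4 : |B X - B (X + p)| ≤ κ * p := abs_le.2 t1
    have t5 : κ * |B X - B (X + p)| ≤ κ * (κ * p) := mul_le_mul_of_nonneg_left t4 κ0
    have t0 : κ * p ≤ p := by nlinarith
    have t6 : κ * (κ * p) < p := by nlinarith
    have t7 := (abs_le.1 t2).1
    have t8 := (abs_le.1 t3).1
    have := hX.1
    constructor
    · refine hs _ ?_ ?_ (Or.inr ?_)
      · simp only; rw [abs_lt]; constructor <;> linarith
      · simp only; rw [abs_lt]; constructor <;> linarith
      · simp only; linarith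
    · refine hs _ ?_ ?_ (Or.inr ?_)
      · simp only; rw [abs_lt]; constructor <;> linarith
      · simp only; rw [abs_lt]; constructor <;> linarith
      · simp only; linarith
  -- claim 2
  have C2 : ∀ y, t ≤ y → y ≤ v → M (DD f u y) = 0 → 0 < σ * M (CC f u y) := by
    intro y h1 h2
    obtain ⟨p, p0, -, p2, hp⟩ := P2 y h1 h2
    rw [DD_eq, CC_eq, hp, fu, mkI, mkI']
    intro hz
    obtain ⟨q1, q2⟩ := b2 (X + p) (by linarith [hX.1]) p2
    have hX1 := hX.1
    obtain ⟨a1, a2⟩ := W.loc _ (h0 _ hz) (by simp only; rw [abs_lt]; constructor <;> linarith)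
      (by simp only; rw [abs_lt]; constructor <;> linarith)
    simp only at a1 a2
    have G := W.geo nosq (x := X) (p := p) (l := T X - B (X + p)) (by linarith) hX0 p0 rfl
      (by linarith) (by
        rcases a2 with h | h
        · left; rw [show X + (T X - B (X + p)) = X - (B (X + p) - T X) by ring, ← h]; ring
        · right; rw [show X + (T X - B (X + p)) = X - (B (X + p) - T X) by ring, ← h]; ring)
    refine hs _ ?_ ?_ (Or.inr ?_)
    · simp only; rw [abs_lt]; constructor <;> linarith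
    · simp only; rw [abs_lt]; constructor <;> linarith
    · simp only
      rw [show X + p - (B (X + p) - T X) = X + p + (T X - B (X + p)) by ring]
      linarith
  have C2' : ∀ x, u ≤ x → x ≤ t → M (CC f x v) = 0 → 0 < σ * M (DD f x v) := by
    intro y h1 h2
    obtain ⟨p, p0, -, p2, hp⟩ := P1 y h1 h2
    rw [DD_eq, CC_eq, hp, fv, mkI, mkI']
    intro hz
    obtain ⟨q1, q2⟩ := b1 (X + p) (by linarith [hX.1]) p2
    have hX1 := hX.1
    obtain ⟨a1, a2⟩ := W.loc _ (h0 _ hz) (by simp only; rw [abs_lt]; constructor <;> linarith)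
      (by simp only; rw [abs_lt]; constructor <;> linarith)
    simp only at a1 a2
    have G := W.mirror.geo (nosq_mirror nosq) (x := X) (p := p) (l := -B X - -T (X + p))
      (by linarith) hX0 p0 rfl (by linarith) (by
        rcases a2 with h | h
        · right; rw [show X + (-B X - -T (X + p)) = X - (B X - T (X + p)) by ring, ← h]; ring
        · left; rw [show X + (-B X - -T (X + p)) = X - (B X - T (X + p)) by ring, ← h]; ring)
    refine hs _ ?_ ?_ (Or.inl ?_)
    · simp only; rw [abs_lt]; constructor <;> linarith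
    · simp only; rw [abs_lt]; constructor <;> linarith
    · simp only
      rw [show X + p - (B X - T (X + p)) = X + p + (-B X - -T (X + p)) by ring]
      linarith
  -- claim 3
  have C3 : 0 < σ * M (DD f u v) ∨ 0 < σ * M (CC f u v) := by
    rw [DD_eq, CC_eq, fu, fv, mkI, mkI']
    have hX1 := hX.1
    by_contra hcon
    push Not at hcon
    obtain ⟨n1, n2⟩ := hcon
    have m1 : T X ≤ T (X - (B X - T X)) := by
      by_contra h
      push Not at h
      refine absurd (hs ⟨X - (B X - T X), T X + (X - X)⟩ ?_ ?_ (Or.inl ?_)) (not_lt.2 n1)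
      · simp only; rw [abs_lt]; constructor <;> linarith
      · simp only; rw [abs_lt]; constructor <;> linarith
      · simp only; linarith
    have m2 : B (X - (B X - T X)) ≤ B X := by
      by_contra h
      push Not at h
      refine absurd (hs ⟨X - (B X - T X), B X + (X - X)⟩ ?_ ?_ (Or.inr ?_)) (not_lt.2 n2)
      · simp only; rw [abs_lt]; constructor <;> linarith
      · simp only; rw [abs_lt]; constructor <;> linarith
      · simp only; linarith
    rw [show X - (B X - T X) = X + (T X - B X) by ring] at m1 m2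
    rcases le_or_gt (X + (T X - B X)) 0 with h | h
    · have h1 := hmax (show X + (T X - B X) ∈ Icc (-r2) 0 from ⟨by linarith, h⟩)
      simp only [mem_ofPred_eq, Pi.sub_apply] at h1
      have := W.k2 nosq X 0 (T X - B X) (by linarith) hX0 ⟨by linarith, by linarith, by
        rw [add_zero]; ring⟩
      rw [add_zero, add_zero] at this
      linarith
    · rw [W.T0 _ h.le] at m1
      rw [W.B0 _ h.le] at m2
      linarith
  -- the angles
  have hUU : ∀ x y, u ≤ x → x < y → y ≤ v → (x, y) ∈ UU := fun x y h1 h2 h3 =>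
    ⟨h2, by simp only; linarith⟩
  have ctu : ContinuousOn (fun y => θ u y) (Ioc u v) :=
    A.cont.comp (f := fun y : ℝ => ((u, y) : ℝ × ℝ)) (by fun_prop)
      (fun y hy => hUU u y le_rfl hy.1 hy.2)
  have ctv : ContinuousOn (fun x => θ x v) (Ico u v) :=
    A.cont.comp (f := fun x : ℝ => ((x, v) : ℝ × ℝ)) (by fun_prop)
      (fun x hx => hUU x v hx.1 hx.2 le_rfl)
  have exA : ∀ x y, u ≤ x → x < y → y ≤ v → ∃ s > 0, M (DD f x y) = s * Real.cos (θ x y) ∧
      M (CC f x y) = s * Real.sin (θ x y) := fun x y h1 h2 h3 => A.ex x y h2 (by linarith)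
  have pc : ∀ x y, u ≤ x → x < y → y ≤ v → 0 < σ * M (DD f x y) → 0 < σ * Real.cos (θ x y) := by
    intro x y h1 h2 h3 h4
    obtain ⟨s, s0, s1, -⟩ := exA x y h1 h2 h3
    rw [s1, show σ * (s * Real.cos (θ x y)) = s * (σ * Real.cos (θ x y)) by ring] at h4
    exact (mul_pos_iff_of_pos_left s0).1 h4
  have ps : ∀ x y, u ≤ x → x < y → y ≤ v → 0 < σ * M (CC f x y) → 0 < σ * Real.sin (θ x y) := by
    intro x y h1 h2 h3 h4
    obtain ⟨s, s0, -, s1⟩ := exA x y h1 h2 h3
    rw [s1, show σ * (s * Real.sin (θ x y)) = s * (σ * Real.sin (θ x y)) by ring] at h4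
    exact (mul_pos_iff_of_pos_left s0).1 h4
  have zc : ∀ x y, u ≤ x → x < y → y ≤ v → Real.cos (θ x y) = 0 → M (DD f x y) = 0 := by
    intro x y h1 h2 h3 h4
    obtain ⟨s, s0, s1, -⟩ := exA x y h1 h2 h3
    rw [s1, h4, mul_zero]
  have zs : ∀ x y, u ≤ x → x < y → y ≤ v → Real.sin (θ x y) = 0 → M (CC f x y) = 0 := by
    intro x y h1 h2 h3 h4
    obtain ⟨s, s0, -, s1⟩ := exA x y h1 h2 h3
    rw [s1, h4, mul_zero]
  have key : ⌊θ u t / Real.pi⌋ = ⌊θ t v / Real.pi⌋ := by
    refine two_paths (φ := fun y => θ u y) (ψ := fun x => θ x v) (a := t) (b := v) (c := u) (d := t)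
      hσ hv3.le hu3.le (ctu.mono fun y hy => ⟨by linarith [hy.1], hy.2⟩)
      (ctv.mono fun y hy => ⟨hy.1, by linarith [hy.2]⟩) ?_ ?_ rfl ?_ ?_ ?_
    · intro y hy h
      have h1 : u < y := by linarith [hy.1]
      exact ps u y le_rfl h1 hy.2 (C2 y hy.1 hy.2 (zc u y le_rfl h1 hy.2 h))
    · intro x hx h
      have h1 : x < v := by linarith [hx.2]
      exact pc x v hx.1 h1 le_rfl (C2' x hx.1 hx.2 (zs x v hx.1 h1 le_rfl h))
    · rcases C3 with h | h
      · exact Or.inl (pc u v le_rfl (by linarith) le_rfl h)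
      · exact Or.inr (ps u v le_rfl (by linarith) le_rfl h)
    · obtain ⟨a1, a2⟩ := C1 t hu3 le_rfl
      exact ⟨pc u t le_rfl hu3 hv3.le a1, ps u t le_rfl hu3 hv3.le a2⟩
    · obtain ⟨a1, a2⟩ := C1' t le_rfl hv3
      exact ⟨pc t v hu3.le hv3 le_rfl a1, ps t v hu3.le hv3 le_rfl a2⟩
  have sne : ∀ x : ℝ, 0 < σ * x → x ≠ 0 := fun x h h' => by
    rw [h', mul_zero] at h; exact lt_irrefl _ h
  refine ⟨u, hu4, hu3, v, hv3, hv4, fun k k' hk hk' => ?_⟩
  obtain ⟨δ, hδ, hk⟩ := hk
  obtain ⟨δ', hδ', hk'⟩ := hk'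
  have k1 : k = ⌊θ u t / Real.pi⌋ := by
    obtain ⟨y, hy1, hy2, hy3⟩ : ∃ y, u < y ∧ y ≤ t ∧ y < u + δ :=
      ⟨min t (u + δ / 2), lt_min hu3 (by linarith), min_le_left _ _,
        lt_of_le_of_lt (min_le_right _ _) (by linarith)⟩
    rw [← hk u y (by simpa using hδ) (by rw [abs_of_pos (by linarith)]; linarith) hy1]
    refine floor_pre (V := Ioc u t) isPreconnected_Ioc (f := fun y => θ u y)
      (ctu.mono fun y hy => ⟨hy.1, by linarith [hy.2]⟩) ?_ ⟨hy1, hy2⟩ ⟨hu3, le_rfl⟩
    intro z hz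
    exact sne _ (ps u z le_rfl hz.1 (by linarith [hz.2]) (C1 z hz.1 hz.2).2)
  have k2 : k' = ⌊θ t v / Real.pi⌋ := by
    obtain ⟨y, hy1, hy2, hy3⟩ : ∃ y, y < v ∧ t ≤ y ∧ v - δ' < y :=
      ⟨max t (v - δ' / 2), max_lt hv3 (by linarith), le_max_left _ _,
        lt_of_lt_of_le (by linarith) (le_max_right _ _)⟩
    rw [← hk' y v (by rw [abs_of_neg (by linarith)]; linarith) (by simpa using hδ') hy1]
    refine floor_pre (V := Ico t v) isPreconnected_Ico (f := fun y => θ y v)
      (ctv.mono fun y hy => ⟨by linarith [hy.1], hy.2⟩) ?_ ⟨hy2, hy1⟩ ⟨le_rfl, hv3⟩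
    intro z hz
    exact sne _ (ps z v (by linarith [hz.1]) hz.2 le_rfl (C1' z hz.1 hz.2).2)
  rw [k1, k2, key]

end Pool.Agent.U333.Peg
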