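import Pool.Agent.U333.Peg.Ex
import Pool.Agent.Y535.PEG.Chg

/-! The number of half turns changes by a multiple of four at a fold. -/

set_option autoImplicit false
open Set Topology Complex

namespace Pool.Agent.U333.Peg

open Pool.Agent.H763R2.An Pool.Agent.Y535.PEG Pool.Agent.W675.Peg
open Pool.Agent.H763R2.Dm (NoSq)
open Pool.Agent.Y450.Stab

variable {c : ℝ → ℂ} {t ρ κ : ℝ} {w : ℂ} {θ : ℝ → ℝ → ℝ} {g : ℤ}

/-- two graphs of Lipschitz constant less than one over the same half line -/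
def Folded (c : ℝ → ℂ) (t : ℝ) : Prop := ∃ w : ℂ, w ≠ 0 ∧ ∃ κ, 0 < κ ∧ κ < 1 ∧ ∃ ρ > 0,
  (∀ x y, t - ρ < x → x < y → y ≤ t →
    |(w * (c y - c x)).im| ≤ κ * (w * (c y - c x)).re) ∧
  (∀ x y, t ≤ x → x < y → y < t + ρ →
    |(w * (c x - c y)).im| ≤ κ * (w * (c x - c y)).re)

theorem repos {z : ℂ} (hz : z ≠ 0) (hκ : 0 < κ) (h : |z.im| ≤ κ * z.re) : 0 < z.re := by
  have h1 : 0 ≤ z.re := by
    by_contra hn
    push Not at hn
    have := abs_nonneg z.im
    nlinarith
  refine lt_of_le_of_ne h1 fun h2 => hz ?_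
  rw [← h2, mul_zero] at h
  exact Complex.ext h2.symm (abs_eq_zero.1 (le_antisymm h (abs_nonneg _)))

/-- the curve seen from the fold -/
noncomputable def nf (c : ℝ → ℂ) (w : ℂ) (t s : ℝ) : ℂ := w * (c s - c t)

theorem nf_loop (L : Loop c) : Loop (nf c w t) where
  cont := by have := L.cont; unfold nf; fun_prop
  per s := by unfold nf; rw [L.per]

theorem nf_inj (J : Inj c) (hw : w ≠ 0) : Inj (nf c w t) := fun x y h1 h2 h => by
  unfold nf at h
  have := mul_left_cancel₀ hw h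
  exact J x y h1 h2 (by linear_combination this)

theorem nf_nosq (nosq : NoSq (range c)) (hw : w ≠ 0) : NoSq (range (nf c w t)) := by
  rintro ⟨z, v, hv, ⟨s1, h1⟩, ⟨s2, h2⟩, ⟨s3, h3⟩, ⟨s4, h4⟩⟩
  unfold nf at h1 h2 h3 h4
  refine nosq ⟨z / w + c t, v / w, div_ne_zero hv hw, ⟨s1, ?_⟩, ⟨s2, ?_⟩, ⟨s3, ?_⟩, ⟨s4, ?_⟩⟩
  · field_simp; linear_combination h1
  · field_simp; linear_combination h2
  · field_simp; linear_combination h3
  · field_simp; linear_combination h4

noncomputable def nM (c : ℝ → ℂ) (w : ℂ) (t : ℝ) (z : ℂ) : ℝ := mgc c (c t + z / w)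

theorem nf_ang (A : Ang c (mgc c) θ g) (hw : w ≠ 0) : Ang (nf c w t) (nM c w t) θ g where
  cont := A.cont
  ex x y h1 h2 := by
    obtain ⟨s, hs, e1, e2⟩ := A.ex x y h1 h2
    refine ⟨s, hs, ?_, ?_⟩
    · rw [← e1, DD_eq, DD_eq]
      unfold nM nf
      congr 1
      field_simp; ring
    · rw [← e2, CC_eq, CC_eq]
      unfold nM nf
      congr 1
      field_simp; ring
  per := A.per

theorem nM_cont (L : Loop c) : Continuous (nM c w t) := by
  have := (mgc_sg L).cont
  unfold nM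
  fun_prop

theorem nM_zero (L : Loop c) (hw : w ≠ 0) (z : ℂ) (h : nM c w t z = 0) :
    z ∈ range (nf c w t) := by
  unfold nM at h
  rw [(mgc_sg L).zero L] at h
  obtain ⟨s, hs⟩ := h
  refine ⟨s, ?_⟩
  unfold nf
  rw [hs]; field_simp; ring

/-- the data of a fold at the level of the curve -/
structure FD (c : ℝ → ℂ) (t ρ κ : ℝ) (w : ℂ) : Prop where
  w0 : w ≠ 0
  ρ0 : 0 < ρ
  ρ1 : ρ ≤ 1 / 4
  κ0 : 0 < κ
  κ1 : κ < 1
  left : ∀ x y, t - ρ ≤ x → x < y → y ≤ t → |(w * (c y - c x)).im| ≤ κ * (w * (c y - c x)).re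
  right : ∀ x y, t ≤ x → x < y → y ≤ t + ρ → |(w * (c x - c y)).im| ≤ κ * (w * (c x - c y)).re

theorem Folded.fd (h : Folded c t) : ∃ ρ κ w, FD c t ρ κ w := by
  obtain ⟨w, hw, κ, κ0, κ1, ρ, hρ, h1, h2⟩ := h
  have a1 : min (ρ / 2) (1 / 4) ≤ ρ / 2 := min_le_left _ _
  exact ⟨min (ρ / 2) (1 / 4), κ, w, hw, by positivity, min_le_right _ _, κ0, κ1,
    fun x y h3 h4 h5 => h1 x y (by linarith) h4 h5, fun x y h3 h4 h5 => h2 x y h3 h4 (by linarith)⟩

theorem FD.Fd (J : Inj c) (F : FD c t ρ κ w) : Fd (nf c w t) t ρ κ where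
  ρ0 := F.ρ0
  ρ1 := F.ρ1
  κ0 := F.κ0.le
  κ1 := F.κ1
  z := by unfold nf; rw [sub_self, mul_zero]
  left x y h1 h2 h3 := by
    have h4 := F.left x y h1 h2 h3
    have ρ1 := F.ρ1
    have h5 := repos (mul_ne_zero F.w0 (sub_ne_zero.2 (J x y h2 (by linarith)).symm)) F.κ0 h4
    have e : w * (c y - c x) = nf c w t y - nf c w t x := by unfold nf; ring
    rw [e, sub_im, sub_re] at h4
    rw [e, sub_re] at h5
    exact ⟨by linarith, h4⟩
  right x y h1 h2 h3 := by
    have h4 := F.right x y h1 h2 h3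
    have ρ1 := F.ρ1
    have h5 := repos (mul_ne_zero F.w0 (sub_ne_zero.2 (J x y h2 (by linarith)))) F.κ0 h4
    have e : w * (c x - c y) = nf c w t x - nf c w t y := by unfold nf; ring
    rw [e, sub_im, sub_re] at h4
    rw [e, sub_re] at h5
    exact ⟨by linarith, h4⟩

theorem FD.rev (F : FD c t ρ κ w) : FD (fun s => c (-s)) (-t) ρ κ w where
  w0 := F.w0
  ρ0 := F.ρ0
  ρ1 := F.ρ1
  κ0 := F.κ0
  κ1 := F.κ1
  left x y h1 h2 h3 := F.right (-y) (-x) (by linarith) (by linarith) (by linarith)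
  right x y h1 h2 h3 := F.left (-y) (-x) (by linarith) (by linarith) (by linarith)

theorem FD.coneL (J : Inj c) (F : FD c t ρ κ w) {s : ℝ} (h1 : t - ρ < s) (h2 : s < t) :
    Cone c s := by
  have ρ1 := F.ρ1
  refine ⟨min (s - (t - ρ)) (t - s), lt_min (by linarith) (by linarith), w, fun x y hx hy hxy => ?_⟩
  obtain ⟨hx1, -⟩ := lt_min_iff.1 hx
  obtain ⟨-, hy2⟩ := lt_min_iff.1 hy
  have hx2 := (abs_lt.1 hx1).1
  have hy3 := (abs_lt.1 hy2).2
  have h4 := F.left x y (by linarith) hxy (by linarith)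
  have h5 := repos (mul_ne_zero F.w0 (sub_ne_zero.2 (J x y hxy (by linarith)).symm)) F.κ0 h4
  have := F.κ1
  nlinarith

theorem FD.coneR (L : Loop c) (J : Inj c) (F : FD c t ρ κ w) {s : ℝ} (h1 : t < s) (h2 : s < t + ρ) :
    Cone c s := by
  have h := (F.rev.coneL (J.rev L) (s := -s) (by linarith) (by linarith)).rev
  simpa using h

/-- the first case: the side before the fold is the upper one -/
theorem fold_one (L : Loop c) (J : Inj c) (nosq : NoSq (range c)) (A : Ang c (mgc c) θ g)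
    (F : FD c t ρ κ w) {T B : ℝ → ℝ} {r R : ℝ} (W : Wd (range (nf c w t)) T B κ r R)
    (e1 : ∀ s, t - ρ ≤ s → s ≤ t → -r ≤ (nf c w t s).re → (nf c w t s).im = T (nf c w t s).re)
    (e2 : ∀ s, t ≤ s → s ≤ t + ρ → -r ≤ (nf c w t s).re → (nf c w t s).im = B (nf c w t s).re)
    (hl : (nf c w t (t - ρ)).re ≤ -r) (hr : (nf c w t (t + ρ)).re ≤ -r) :
    ∃ u, t - ρ < u ∧ u < t ∧ ∃ v, t < v ∧ v < t + ρ ∧ ∀ k k', KL θ u k → KL θ v k' → k = k' :=
  fold1 (F.Fd J) (nf_loop L).cont W e1 e2 hl hr (nf_nosq nosq F.w0) (nM_cont L)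
    (nM_zero L F.w0) (nf_ang A F.w0)

/-- at some pair of points on the two sides of a fold -/
theorem fold_two (L : Loop c) (J : Inj c) (nosq : NoSq (range c)) (A : Ang c (mgc c) θ g)
    (F : FD c t ρ κ w) : ∃ u, t - ρ < u ∧ u < t ∧ ∃ v, t < v ∧ v < t + ρ ∧
      ∀ k k', KL θ u k → KL θ v k' → ∃ m : ℤ, k' - k = 4 * m := by
  obtain ⟨T, B, r, R, W, e1, e2, hl, hr⟩ := exWd (nf_loop L) (nf_inj J F.w0) (F.Fd J)
  have ρ1 := F.ρ1
  rcases W with W | W
  · obtain ⟨u, h1, h2, v, h3, h4, h5⟩ := fold_one L J nosq A F W e1 e2 hl hr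
    exact ⟨u, h1, h2, v, h3, h4, fun k k' hk hk' => ⟨0, by rw [h5 k k' hk hk']; ring⟩⟩
  · have en : ∀ s, nf (fun s => c (-s)) w (-t) s = nf c w t (-s) := fun s => by
      unfold nf; simp only [neg_neg]
    have er : range (nf (fun s => c (-s)) w (-t)) = range (nf c w t) := by
      rw [show nf (fun s => c (-s)) w (-t) = fun s => nf c w t (-s) from funext en]
      exact range_rev
    obtain ⟨u, h1, h2, v, h3, h4, h5⟩ := fold_one L.rev (J.rev L) (by rw [range_rev]; exact nosq)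
      (Ang.rev L A) F.rev (T := B) (B := T) (r := r) (R := R) (by rw [er]; exact W)
      (fun s h1 h2 h3 => by
        rw [en] at h3 ⊢
        exact e2 (-s) (by linarith) (by linarith) h3)
      (fun s h1 h2 h3 => by
        rw [en] at h3 ⊢
        exact e1 (-s) (by linarith) (by linarith) h3)
      (by rw [en, show -(-t - ρ) = t + ρ by ring]; exact hr)
      (by rw [en, show -(-t + ρ) = t - ρ by ring]; exact hl)
    have Cu : Cone c (-v) := F.coneL J (by linarith) (by linarith)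
    have Cv : Cone c (-u) := F.coneR L J (by linarith) (by linarith)
    obtain ⟨ru, hru⟩ := exKR L J A Cu
    obtain ⟨rv, hrv⟩ := exKR L J A Cv
    have hru' := hru.rev
    have hrv' := hrv.rev
    rw [neg_neg] at hru' hrv'
    have e := h5 rv ru hrv' hru'
    refine ⟨-v, by linarith, by linarith, -u, by linarith, by linarith, fun k k' hk hk' => ?_⟩
    obtain ⟨m, hm⟩ := parity L J nosq A (a := -v) (b := -u) (by linarith) (by linarith) Cu Cv hk hk'
      hru hrv
    exact ⟨-m, by linarith⟩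

/-- at a fold the number of half turns changes by a multiple of four -/
theorem fold_all (L : Loop c) (J : Inj c) (nosq : NoSq (range c)) (A : Ang c (mgc c) θ g)
    (F : FD c t ρ κ w) {u v : ℝ} (h1 : t - ρ < u) (h2 : u < t) (h3 : t < v) (h4 : v < t + ρ)
    {k k' : ℤ} (hk : KL θ u k) (hk' : KL θ v k') : ∃ m : ℤ, k' - k = 4 * m := by
  obtain ⟨u0, a1, a2, v0, a3, a4, H⟩ := fold_two L J nosq A F
  have cl : ∀ s, t - ρ < s → s < t → Cone c s := fun s b1 b2 => F.coneL J b1 b2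
  have cr : ∀ s, t < s → s < t + ρ → Cone c s := fun s b1 b2 => F.coneR L J b1 b2
  have l : KL θ u0 k := by
    obtain ⟨k0, hk0⟩ := exKL L J A (cl u0 a1 a2)
    rcases le_total u u0 with h | h
    · rwa [KL.tame L J A (fun s hs => cl s (by linarith [hs.1]) (by linarith [hs.2])) h hk hk0]
    · rwa [← KL.tame L J A (fun s hs => cl s (by linarith [hs.1]) (by linarith [hs.2])) h hk0 hk]
  have r : KL θ v0 k' := by
    obtain ⟨k0, hk0⟩ := exKL L J A (cr v0 a3 a4)
    rcases le_total v v0 with h | h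
    · rwa [KL.tame L J A (fun s hs => cr s (by linarith [hs.1]) (by linarith [hs.2])) h hk' hk0]
    · rwa [← KL.tame L J A (fun s hs => cr s (by linarith [hs.1]) (by linarith [hs.2])) h hk0 hk']
  exact H k k' l r

theorem Cone.mon {s : ℝ} (h : Cone c s) : Mon c s := by
  obtain ⟨ρ, hρ, w, H⟩ := h
  exact ⟨ρ, hρ, w, fun x y hx hy hxy => (abs_nonneg _).trans_lt (H x y hx hy hxy)⟩

theorem Mon.open {s : ℝ} (h : Mon c s) : ∃ ρ > 0, ∀ s', |s' - s| < ρ → Mon c s' := by
  obtain ⟨ρ, hρ, w, H⟩ := h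
  refine ⟨ρ / 2, by positivity, fun s' hs' => ⟨ρ / 2, by positivity, w, fun x y hx hy => ?_⟩⟩
  exact H x y (near_tr (by linarith) hx) (near_tr (by linarith) hy)

theorem fin_bad (L : Loop c) (J : Inj c) (h : ∀ t, Mon c t ∨ Folded c t) (a b : ℝ) :
    (Icc a b ∩ {s | ¬ Mon c s}).Finite := by
  refine isCompact_Icc.induction_on (p := fun S => (S ∩ {s | ¬ Mon c s}).Finite) (by simp)
    (fun S S' hS h => h.subset (inter_subset_inter_left _ hS))
    (fun S S' h1 h2 => by rw [union_inter_distrib_right]; exact h1.union h2) (fun s _ => ?_)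
  rcases h s with hs | hs
  · obtain ⟨ρ, hρ, H⟩ := Mon.open hs
    refine ⟨Metric.ball s ρ, mem_nhdsWithin_of_mem_nhds (Metric.ball_mem_nhds s hρ), ?_⟩
    convert Set.finite_empty
    ext x
    simp only [mem_inter_iff, mem_ofPred_eq, mem_empty_iff_false, iff_false, not_and, not_not]
    exact fun hx => H x hx
  · obtain ⟨ρ, κ, w, F⟩ := hs.fd
    refine ⟨Metric.ball s ρ, mem_nhdsWithin_of_mem_nhds (Metric.ball_mem_nhds s F.ρ0), ?_⟩
    refine (Set.finite_singleton s).subset fun x hx => ?_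
    by_contra hne
    have hx1 := abs_lt.1 (show |x - s| < ρ from hx.1)
    rcases lt_or_gt_of_ne (show x ≠ s from hne) with h1 | h1
    · exact hx.2 (Cone.mon (F.coneL J (by linarith) h1))
    · exact hx.2 (Cone.mon (F.coneR L J h1 (by linarith)))

/-- between two points where the curve is straight the number of half turns changes by a multiple
of four -/
theorem chain (L : Loop c) (J : Inj c) (nosq : NoSq (range c)) (A : Ang c (mgc c) θ g)
    (h : ∀ t, Mon c t ∨ Folded c t) : ∀ (n : ℕ) (a b : ℝ), a < b → b < a + 1 →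
      (Icc a b ∩ {s | ¬ Mon c s}).ncard = n → Cone c a → Cone c b →
      ∀ la lb, KL θ a la → KL θ b lb → ∃ m : ℤ, lb - la = 4 * m := by
  intro n
  induction n using Nat.strong_induction_on with
  | _ n ih =>
    intro a b hab hba hn Ca Cb la lb hla hlb
    rcases (Icc a b ∩ {s | ¬ Mon c s}).eq_empty_or_nonempty with h0 | ⟨m, hm1, hm2⟩
    · refine mono4 L J nosq A hab hba Ca Cb (fun s hs => ?_) hla hlb
      by_contra hcon
      have : s ∈ Icc a b ∩ {s | ¬ Mon c s} := ⟨hs, hcon⟩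
      rw [h0] at this
      exact this
    · have ham : a < m := by
        refine lt_of_le_of_ne hm1.1 fun h => hm2 ?_
        rw [← h]; exact Cone.mon Ca
      have hmb : m < b := by
        refine lt_of_le_of_ne hm1.2 fun h => hm2 ?_
        rw [h]; exact Cone.mon Cb
      obtain ⟨ρ, κ, w, F⟩ := ((h m).resolve_left hm2).fd
      have ρ0 := F.ρ0
      obtain ⟨u, hu1, hu2⟩ := exists_between (max_lt ham (by linarith : m - ρ < m))
      obtain ⟨v, hv1, hv2⟩ := exists_between (lt_min hmb (by linarith : m < m + ρ))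
      obtain ⟨hu3, hu4⟩ := max_lt_iff.1 hu1
      obtain ⟨hv3, hv4⟩ := lt_min_iff.1 hv2
      have Cu : Cone c u := F.coneL J hu4 hu2
      have Cv : Cone c v := F.coneR L J hv1 hv4
      obtain ⟨lu, hlu⟩ := exKL L J A Cu
      obtain ⟨lv, hlv⟩ := exKL L J A Cv
      have fin := fin_bad L J h a b
      have lt1 : (Icc a u ∩ {s | ¬ Mon c s}).ncard < n := by
        rw [← hn]
        refine Set.ncard_lt_ncard ?_ fin
        rw [Set.ssubset_iff_of_subset (inter_subset_inter_left _ (Icc_subset_Icc_right (by linarith)))]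
        exact ⟨m, ⟨hm1, hm2⟩, fun h => absurd h.1.2 (by linarith)⟩
      have lt2 : (Icc v b ∩ {s | ¬ Mon c s}).ncard < n := by
        rw [← hn]
        refine Set.ncard_lt_ncard ?_ fin
        rw [Set.ssubset_iff_of_subset (inter_subset_inter_left _ (Icc_subset_Icc_left (by linarith)))]
        exact ⟨m, ⟨hm1, hm2⟩, fun h => absurd h.1.1 (by linarith)⟩
      obtain ⟨m1, e1⟩ := ih _ lt1 a u hu3 (by linarith) rfl Ca Cu la lu hla hlu
      obtain ⟨m2, e2⟩ := ih _ lt2 v b hv3 (by linarith) rfl Cv Cb lv lb hlv hlb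
      obtain ⟨m3, e3⟩ := fold_all L J nosq A F hu4 hu2 hv1 hv4 hlu hlv
      exact ⟨m1 + m2 + m3, by linarith⟩

/-- a curve that is locally monotone or folded at every point, and not locally monotone at some
point, has an inscribed square -/
theorem main_fold (L : Loop c) (J : Inj c) (h : ∀ t, Mon c t ∨ Folded c t) {m : ℝ}
    (hm : ¬ Mon c m) : ¬ NoSq (range c) := by
  intro nosq
  obtain ⟨θ, g, A, hg⟩ := exists_odd L J nosq
  obtain ⟨ρ, κ, w, F⟩ := ((h m).resolve_left hm).fd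
  have ρ0 := F.ρ0
  have ρ1 := F.ρ1
  have Cu : Cone c (m - ρ / 2) := F.coneL J (by linarith) (by linarith)
  have Cv : Cone c (m + ρ / 2) := F.coneR L J (by linarith) (by linarith)
  obtain ⟨lu, hlu⟩ := exKL L J A Cu
  obtain ⟨lv, hlv⟩ := exKL L J A Cv
  obtain ⟨m1, e1⟩ := fold_all L J nosq A F (by linarith) (by linarith) (by linarith) (by linarith)
    hlu hlv
  obtain ⟨m2, e2⟩ := chain L J nosq A h _ (m + ρ / 2) (m - ρ / 2 + 1) (by linarith) (by linarith)
    rfl Cv (Cu.per L) lv (lu + 2 * g) hlv (hlu.per A)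
  obtain ⟨j, hj⟩ := hg
  omega

end Pool.Agent.U333.Peg
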