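import Pool.Agent.Y450.Lens.Layer

/-! The family of squares with three vertices on the two sides of a wedge formed by two graphs of
Lipschitz constant less than `1` that meet at the origin: the last vertex lies below the wedge. -/

set_option autoImplicit false
open MeasureTheory intervalIntegral Set Topology

namespace Pool.Agent.U333.Peg

open Pool.Agent.Y450.Stab

variable {C : ℝ} {X H : ℕ → ℝ}

/-- the lower bound for the later abscissas, cut off at the first abscissa -/
noncomputable def Ly (C : ℝ) (X H : ℕ → ℝ) (k : ℕ) (t : ℝ) : ℝ := max (X 0) (Lay C X H k t)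

theorem Ly.lip (hC : 0 ≤ C) (k : ℕ) : Lip C (Ly C X H k) := by
  intro s t
  have h1 := Lay.lip (X := X) (H := H) hC k s t
  unfold Ly
  refine (abs_max_sub_max_le_max _ _ _ _).trans (max_le ?_ h1)
  rw [sub_self, abs_zero]
  positivity

/-- the sum of the areas under a path that never moves to the left on the same level and never
moves to the left of its initial point -/
theorem layer' (hC : 0 ≤ C) {n : ℕ} (h0 : ∀ k ≤ n, 0 ≤ H k) (hx : ∀ k ≤ n, X 0 ≤ X k)
    (hc : ∀ j k, j ≤ k → k ≤ n → X j - C * |H k - H j| ≤ X k) :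
    -(C / 2) * H n ^ 2 - C / 2 * ∑ k ∈ Finset.range n, (H (k + 1) - H k) ^ 2 ≤ Sm X H n := by
  have key : ∀ k ≤ n, X k * H k - Prim (Ly C X H k) (H k) -
      C / 2 * ∑ i ∈ Finset.range k, (H (i + 1) - H i) ^ 2 ≤ Sm X H k := by
    intro k
    induction k with
    | zero =>
      intro _
      have hH := h0 0 (by omega)
      have h := le_Prim (f := Ly C X H 0) (Ly.lip hC 0).cont (C := X 0) hH
        fun t _ => le_max_left _ _
      have e0 : Prim (Ly C X H 0) 0 = 0 := by simp [Prim]
      rw [e0] at h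
      simp only [Sm, Finset.range_zero, Finset.sum_empty, mul_zero, sub_zero] at h ⊢
      linarith
    | succ k ih =>
      intro hk
      have ih := ih (by omega)
      have hS : Sm X H (k + 1) = Sm X H k + (H k + H (k + 1)) / 2 * (X (k + 1) - X k) := by
        unfold Sm; rw [Finset.sum_range_succ]
      rw [hS, Finset.sum_range_succ]
      have c0 := (Ly.lip (X := X) (H := H) hC k).cont
      have c1 := (Ly.lip (X := X) (H := H) hC (k + 1)).cont
      have e0 : ∀ j, Prim (Ly C X H j) 0 = 0 := fun j => by simp [Prim]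
      have hk0 := h0 k (by omega)
      have hk1 := h0 (k + 1) hk
      suffices hs : (X k + X (k + 1)) / 2 * (H (k + 1) - H k) - C / 2 * (H (k + 1) - H k) ^ 2 ≤
          Prim (Ly C X H (k + 1)) (H (k + 1)) - Prim (Ly C X H k) (H k) by
        linarith
      rcases le_total (H k) (H (k + 1)) with hu | hd
      · have m1 := Prim_mono c0 c1 hk0 fun t _ => max_le_max le_rfl (Lay.mono k t)
        rw [e0, e0] at m1
        have m2 := le_Prim c1 (C := (X k + X (k + 1)) / 2 - C / 2 * (H (k + 1) - H k)) hu
          fun t ht => by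
            have s1 := (Lay.self (C := C) (X := X) (H := H) k t).trans (Lay.mono k t)
            have s2 := Lay.self (C := C) (X := X) (H := H) (k + 1) t
            have s3 : Lay C X H (k + 1) t ≤ Ly C X H (k + 1) t := le_max_right _ _
            rw [abs_of_nonneg (by linarith [ht.1] : 0 ≤ t - H k)] at s1
            rw [abs_of_nonpos (by linarith [ht.2] : t - H (k + 1) ≤ 0)] at s2
            linarith
        linarith
      · have m1 := Prim_mono c0 c1 hk1 fun t _ => max_le_max le_rfl (Lay.mono k t)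
        rw [e0, e0] at m1
        have m2 := Prim_le c0 (C := (X k + X (k + 1)) / 2 + C / 2 * (H k - H (k + 1))) hd
          fun t ht => by
            have s1 : Ly C X H k (H k) ≤ X k :=
              max_le (hx k (by omega)) (Lay.le hc k k le_rfl (by omega))
            have s2 : Ly C X H k (H (k + 1)) ≤ X (k + 1) :=
              max_le (hx (k + 1) hk) (Lay.le hc k (k + 1) (by omega) hk)
            have l1 := (abs_le.1 (Ly.lip (X := X) (H := H) hC k t (H k))).2
            have l2 := (abs_le.1 (Ly.lip (X := X) (H := H) hC k t (H (k + 1)))).2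
            rw [abs_of_nonpos (by linarith [ht.2] : t - H k ≤ 0)] at l1
            rw [abs_of_nonneg (by linarith [ht.1] : 0 ≤ t - H (k + 1))] at l2
            linarith
        linarith
  have h := key n le_rfl
  have hn := h0 n le_rfl
  have m := (abs_le.1 ((Ly.lip (X := X) (H := H) hC n).right hn)).2
  have hL : Ly C X H n (H n) ≤ X n := max_le (hx n le_rfl) (Lay.le hc n n le_rfl le_rfl)
  have hm := mul_le_mul_of_nonneg_left hL hn
  have e0 : Prim (Ly C X H n) 0 = 0 := by simp [Prim]
  rw [e0] at m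
  simp only [sub_zero] at m
  linarith

variable {T B : ℝ → ℝ} {L : ℝ}

/-- the potential grows along the family of squares if the last vertex stays above the lower graph,
is to the right of its initial position and finally reaches the lower graph -/
theorem path' (hT : Lip L T) (hB : Lip L B) (L0 : 0 ≤ L) (L1 : L < 1) {xs xe : ℝ} (hx : xs ≤ xe)
    {dd ll : ℝ → ℝ} (hS : ∀ x ∈ Icc xs xe, ESq T B x (dd x) (ll x))
    (hH : ∀ x ∈ Icc xs xe, 0 ≤ T x + dd x - ll x - B (x + dd x + ll x))
    (hX : ∀ x ∈ Icc xs xe, xs + dd xs + ll xs ≤ x + dd x + ll x)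
    (he : T xe + dd xe - ll xe = B (xe + dd xe + ll xe)) :
    Pot T B xs (dd xs) (ll xs) ≤ Pot T B xe (dd xe) (ll xe) := by
  set K : ℝ := 1 + 4 / (1 - L) with hK
  have q0 : 0 < 1 - L := by linarith
  have K1 : 1 ≤ K := by rw [hK]; have := div_nonneg (by norm_num : (0:ℝ) ≤ 4) q0.le; linarith
  set C : ℝ := 1 / (1 - L) with hC
  have C0 : 0 ≤ C := by rw [hC]; positivity
  have main : ∀ n : ℕ, 0 < n →
      Pot T B xs (dd xs) (ll xs)
      - (C * (2 * K) ^ 2 / 2 + K ^ 2) * (xe - xs) ^ 2 * (1 / n)
      ≤ Pot T B xe (dd xe) (ll xe) := by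
    intro n hn
    have hn' : (0:ℝ) < n := by exact_mod_cast hn
    set r : ℝ := (xe - xs) / n with hr
    have r0 : 0 ≤ r := div_nonneg (by linarith) hn'.le
    set g : ℕ → ℝ := fun k => xs + k * r with hg
    have gn : g n = xe := by
      simp only [hg, hr]
      field_simp
      ring
    have g0 : g 0 = xs := by simp [hg]
    have gs : ∀ k, g (k + 1) = g k + r := fun k => by simp only [hg]; push_cast; ring
    have gm : ∀ k ≤ n, g k ∈ Icc xs xe := by
      intro k hk
      have hk' : (k:ℝ) ≤ n := by exact_mod_cast hk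
      have hk0 : (0:ℝ) ≤ k := Nat.cast_nonneg k
      constructor
      · have := mul_nonneg hk0 r0
        simp only [hg]; linarith
      · have := mul_le_mul_of_nonneg_right hk' r0
        rw [← gn]; simp only [hg]; linarith
    set X : ℕ → ℝ := fun k => g k + dd (g k) + ll (g k) with hXd
    set Y : ℕ → ℝ := fun k => T (g k) + dd (g k) - ll (g k) with hYd
    set H : ℕ → ℝ := fun k => Y k - B (X k) with hHd
    have H0 : ∀ k ≤ n, 0 ≤ H k := fun k hk => hH (g k) (gm k hk)
    have hX0 : ∀ k ≤ n, X 0 ≤ X k := fun k hk => by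
      have := hX (g k) (gm k hk)
      simp only [hXd, g0]
      exact this
    have hcone : ∀ j k, j ≤ k → k ≤ n → X j - C * |H k - H j| ≤ X k := by
      intro j k hjk hk
      by_cases hXX : X j ≤ X k
      · have := mul_nonneg C0 (abs_nonneg (H k - H j))
        linarith
      push Not at hXX
      have e : g k = g j + (k - j) * r := by simp only [hg]; ring
      have hjk' : (0:ℝ) ≤ k - j := by
        have : (j:ℝ) ≤ k := by exact_mod_cast hjk
        linarith
      have rp : 0 < ((k:ℝ) - j) * r := by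
        refine lt_of_le_of_ne (mul_nonneg hjk' r0) fun h => ?_
        rw [← h, add_zero] at e
        simp only [hXd, e] at hXX
        exact lt_irrefl _ hXX
      have Sj := hS (g j) (gm j (hjk.trans hk))
      have Sk := hS (g k) (gm k hk)
      rw [e] at Sk
      have hc := Sj.cone hT hB L1 Sk rp
      rw [← e] at hc
      have hc' : X j - X k ≤ |Y k - Y j| := hc
      have hb := hB (X k) (X j)
      rw [abs_of_neg (by linarith : X k - X j < 0)] at hb
      have hh : |Y k - Y j| ≤ |H k - H j| + |B (X k) - B (X j)| := by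
        have h1 : Y k - Y j = (H k - H j) + (B (X k) - B (X j)) := by
          simp only [hHd]; ring
        rw [h1]
        exact abs_add_le _ _
      have : (1 - L) * (X j - X k) ≤ |H k - H j| := by linarith
      have := mul_le_mul_of_nonneg_left this C0
      rw [← mul_assoc, show C * (1 - L) = 1 by rw [hC]; field_simp, one_mul] at this
      linarith
    have hlay := layer' (X := X) (H := H) (C := C) C0 H0 hX0 hcone
    have hKr : r ≤ K * r := by
      have := mul_le_mul_of_nonneg_right K1 r0
      linarith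
    have hst : ∀ k < n, |dd (g (k + 1)) - dd (g k)| + |ll (g (k + 1)) - ll (g k)| ≤ K * r - r := by
      intro k hk
      have S1 := hS (g k) (gm k hk.le)
      have S2 := hS (g (k + 1)) (gm (k + 1) hk)
      rw [gs k] at S2
      have := S1.steps hT hB L0 L1 S2 r0
      rw [← gs k] at this
      have e : K - 1 = 4 / (1 - L) := by rw [hK]; ring
      rw [show K * r - r = (K - 1) * r by ring, e, div_mul_eq_mul_div, le_div_iff₀ q0]
      linarith
    have hstep : ∀ k < n, (H k + H (k + 1)) / 2 * (X (k + 1) - X k) -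
        K ^ 2 * r ^ 2 ≤ Pot T B (g (k + 1)) (dd (g (k + 1))) (ll (g (k + 1))) -
          Pot T B (g k) (dd (g k)) (ll (g k)) := by
      intro k hk
      have S1 := hS (g k) (gm k hk.le)
      have S2 := hS (g (k + 1)) (gm (k + 1) hk)
      rw [gs k] at S2
      have hcmp := Pool.Agent.Y450.Lens.step_cmp hT hB L1 hB L1 S1 S2
      rw [← gs k] at hcmp
      have hs := hst k hk
      have b1 := abs_le.1 (le_refl |dd (g (k + 1)) - dd (g k)|)
      have b2 := abs_le.1 (le_refl |ll (g (k + 1)) - ll (g k)|)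
      have sq1 : ∀ z : ℝ, |z| ≤ K * r → z ^ 2 ≤ K ^ 2 * r ^ 2 := by
        intro z hz
        rw [← mul_pow, ← sq_abs z]
        exact pow_le_pow_left₀ (abs_nonneg _) hz 2
      have n1 := abs_nonneg (dd (g (k + 1)) - dd (g k))
      have n2 := abs_nonneg (ll (g (k + 1)) - ll (g k))
      have f1 : r ^ 2 ≤ K ^ 2 * r ^ 2 := sq1 r (by rw [abs_of_nonneg r0]; exact hKr)
      have f2 := sq1 (r + (dd (g (k + 1)) - dd (g k))) (by
        rw [abs_le]; constructor <;> linarith [b1.1, b1.2])
      have f3 := sq1 (r + (ll (g (k + 1)) - ll (g k))) (by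
        rw [abs_le]; constructor <;> linarith [b2.1, b2.2])
      have f4 := sq1 (r + (dd (g (k + 1)) - dd (g k)) + (ll (g (k + 1)) - ll (g k))) (by
        rw [abs_le]; constructor <;> linarith [b1.1, b1.2, b2.1, b2.2])
      have hs3 := (abs_le.1 hcmp).1
      have eX : X (k + 1) = g k + r + dd (g (k + 1)) + ll (g (k + 1)) := by
        simp only [hXd]; rw [gs k]
      have eX' : X (k + 1) = g (k + 1) + dd (g (k + 1)) + ll (g (k + 1)) := rfl
      simp only [hHd, hYd]
      rw [eX']
      have eXk : X k = g k + dd (g k) + ll (g k) := rfl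
      rw [eXk]
      linarith
    have hH2 : ∀ k < n, (H (k + 1) - H k) ^ 2 ≤ (2 * K) ^ 2 * r ^ 2 := by
      intro k hk
      have hs := hst k hk
      have t1 := hT (g (k + 1)) (g k)
      have t2 := hB (X (k + 1)) (X k)
      rw [show g (k + 1) - g k = r by rw [gs k]; ring, abs_of_nonneg r0] at t1
      have b1 := abs_le.1 (le_refl |dd (g (k + 1)) - dd (g k)|)
      have b2 := abs_le.1 (le_refl |ll (g (k + 1)) - ll (g k)|)
      have n1 := abs_nonneg (dd (g (k + 1)) - dd (g k))
      have n2 := abs_nonneg (ll (g (k + 1)) - ll (g k))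
      have eX : |X (k + 1) - X k| ≤ K * r := by
        have : X (k + 1) - X k =
            r + (dd (g (k + 1)) - dd (g k)) + (ll (g (k + 1)) - ll (g k)) := by
          simp only [hXd]
          rw [show g (k + 1) = g k + r from gs k]; ring
        rw [this, abs_le]; constructor <;> linarith [b1.1, b1.2, b2.1, b2.2]
      have hz : |H (k + 1) - H k| ≤ 2 * K * r := by
        have t1 := abs_le.1 t1
        have t2 := abs_le.1 (t2.trans (mul_le_mul_of_nonneg_left eX L0))
        have u1 : L * r ≤ r := by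
          have := mul_le_mul_of_nonneg_right L1.le r0
          linarith
        have u2 : L * (K * r) ≤ K * r := by
          have := mul_le_mul_of_nonneg_right L1.le (mul_nonneg (by linarith : (0:ℝ) ≤ K) r0)
          linarith
        have h1 : H (k + 1) - H k = (T (g (k + 1)) - T (g k)) + (dd (g (k + 1)) - dd (g k)) -
          (ll (g (k + 1)) - ll (g k)) - (B (X (k + 1)) - B (X k)) := by
            simp only [hHd, hYd]; ring
        rw [h1, abs_le]
        constructor <;> linarith [b1.1, b1.2, b2.1, b2.2, t1.1, t1.2, t2.1, t2.2]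
      rw [← mul_pow, ← sq_abs (H (k + 1) - H k)]
      exact pow_le_pow_left₀ (abs_nonneg _) hz 2
    have hsumH : ∑ k ∈ Finset.range n, (H (k + 1) - H k) ^ 2 ≤ n * ((2 * K) ^ 2 * r ^ 2) := by
      refine (Finset.sum_le_sum fun k hk => hH2 k (Finset.mem_range.1 hk)).trans ?_
      rw [Finset.sum_const, Finset.card_range, nsmul_eq_mul]
    have hsumP := Finset.sum_le_sum fun k hk => hstep k (Finset.mem_range.1 hk)
    rw [Finset.sum_sub_distrib,
      Finset.sum_range_sub (fun k => Pot T B (g k) (dd (g k)) (ll (g k))), Finset.sum_const,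
      Finset.card_range, nsmul_eq_mul, gn, g0] at hsumP
    have eHn : H n = 0 := by
      simp only [hHd, hYd, hXd, gn]
      linarith
    rw [eHn] at hlay
    have er : (n:ℝ) * r ^ 2 = (xe - xs) ^ 2 * (1 / n) := by
      rw [hr]; field_simp
    have hl2 : C / 2 * ∑ k ∈ Finset.range n, (H (k + 1) - H k) ^ 2 ≤
        C / 2 * (n * ((2 * K) ^ 2 * r ^ 2)) :=
      mul_le_mul_of_nonneg_left hsumH (by positivity)
    have e3 : C / 2 * (n * ((2 * K) ^ 2 * r ^ 2)) + n * (K ^ 2 * r ^ 2) =
        (C * (2 * K) ^ 2 / 2 + K ^ 2) * (xe - xs) ^ 2 * (1 / n) := by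
      rw [mul_assoc (C * (2 * K) ^ 2 / 2 + K ^ 2), ← er]; ring
    unfold Sm at hlay
    rw [show (0:ℝ) ^ 2 = 0 by norm_num, mul_zero] at hlay
    linarith
  have hlim : Filter.Tendsto (fun n : ℕ => Pot T B xs (dd xs) (ll xs)
      - (C * (2 * K) ^ 2 / 2 + K ^ 2) * (xe - xs) ^ 2 * (1 / (n:ℝ))) Filter.atTop
      (nhds (Pot T B xs (dd xs) (ll xs)
      - (C * (2 * K) ^ 2 / 2 + K ^ 2) * (xe - xs) ^ 2 * 0)) :=
    tendsto_const_nhds.sub (tendsto_one_div_atTop_nhds_zero_nat.const_mul _)
  have := le_of_tendsto hlim (Filter.eventually_atTop.2 ⟨1, fun n hn => main n hn⟩)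
  rw [mul_zero, sub_zero] at this
  exact this

/-- in a wedge with its vertex at the origin whose sides are graphs of Lipschitz constant less than
`1` over the negative half line, the squares with two adjacent vertices on the upper side and the
third one on the lower side below the left one have their last vertex below the lower side, if there
is no such square with all vertices on the sides -/
theorem k2 (hT : Lip L T) (hB : Lip L B) (L0 : 0 ≤ L) (L1 : L < 1) {r : ℝ}
    (hT0 : ∀ x, 0 ≤ x → T x = 0) (hB0 : ∀ x, 0 ≤ x → B x = 0)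
    (hTB : ∀ x, -r ≤ x → x < 0 → B x < T x)
    (hne : ∀ x d l, -r ≤ x → x < 0 → ESq T B x d l → T x + d - l ≠ B (x + d + l)) :
    ∀ x d l, -r ≤ x → x < 0 → ESq T B x d l → T x + d - l < B (x + d + l) := by
  have q0 : 0 < 1 - L := by linarith
  have hex : ∀ x, ∃ d l, x ∈ Icc (-r) 0 → ESq T B x d l := by
    intro x
    by_cases hx : x ∈ Icc (-r) 0
    · have hle : B x ≤ T x := by
        rcases lt_or_eq_of_le hx.2 with h | h
        · exact (hTB x hx.1 h).le
        · rw [h, hT0 0 le_rfl, hB0 0 le_rfl]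
      obtain ⟨d, l, S⟩ := ESq.ex hT hB L0 L1 hle
      exact ⟨d, l, fun _ => S⟩
    · exact ⟨0, 0, fun h => absurd h hx⟩
  choose dd ll hS using hex
  have uniq : ∀ x d l d' l', ESq T B x d l → ESq T B x d' l' → d' = d ∧ l' = l := by
    intro x d l d' l' S S'
    have S2 : ESq T B (x + 0) d' l' := by rw [add_zero]; exact S'
    have := S.steps hT hB L0 L1 S2 le_rfl
    rw [mul_zero] at this
    have h0 : |d' - d| + |l' - l| ≤ 0 := by
      by_contra h
      push Not at h
      have := mul_pos q0 h
      linarith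
    have a1 := abs_nonneg (d' - d)
    have a2 := abs_nonneg (l' - l)
    have b1 : |d' - d| = 0 := by linarith
    have b2 : |l' - l| = 0 := by linarith
    exact ⟨sub_eq_zero.1 (abs_eq_zero.1 b1), sub_eq_zero.1 (abs_eq_zero.1 b2)⟩
  intro x1 d1 l1 hx1 hx1' S1
  have m1 : x1 ∈ Icc (-r) 0 := ⟨hx1, hx1'.le⟩
  obtain ⟨e1, e2⟩ := uniq _ _ _ _ _ (hS x1 m1) S1
  subst e1 e2
  by_contra hcon
  push Not at hcon
  have hgt : B (x1 + dd x1 + ll x1) < T x1 + dd x1 - ll x1 :=
    lt_of_le_of_ne hcon (hne x1 _ _ hx1 hx1' S1).symm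
  -- continuity of the family
  have step : ∀ x y, x ∈ Icc x1 0 → y ∈ Icc x1 0 → |dd x - dd y| ≤ 4 / (1 - L) * |x - y| ∧
      |ll x - ll y| ≤ 4 / (1 - L) * |x - y| := by
    have key : ∀ x y, x ∈ Icc x1 0 → y ∈ Icc x1 0 → x ≤ y → |dd y - dd x| ≤ 4 / (1 - L) * (y - x) ∧
      |ll y - ll x| ≤ 4 / (1 - L) * (y - x) := by
      intro x y hx hy hxy
      have Sx := hS x ⟨by linarith [hx.1], hx.2⟩
      have Sy := hS y ⟨by linarith [hy.1], hy.2⟩
      rw [show y = x + (y - x) by ring] at Sy
      have := Sx.steps hT hB L0 L1 Sy (by linarith)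
      rw [show x + (y - x) = y by ring] at this
      have a1 := abs_nonneg (dd y - dd x)
      have a2 := abs_nonneg (ll y - ll x)
      have h3 : |dd y - dd x| + |ll y - ll x| ≤ 4 / (1 - L) * (y - x) := by
        rw [div_mul_eq_mul_div, le_div_iff₀ q0]; linarith
      exact ⟨by linarith, by linarith⟩
    intro x y hx hy
    rcases le_total x y with h | h
    · have := key x y hx hy h
      rw [abs_sub_comm x y, abs_of_nonneg (by linarith : 0 ≤ y - x), abs_sub_comm (dd x),
        abs_sub_comm (ll x)]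
      exact this
    · have := key y x hy hx h
      rw [abs_of_nonneg (by linarith : 0 ≤ x - y)]
      exact this
  have contL : ∀ f : ℝ → ℝ, (∀ x y, x ∈ Icc x1 0 → y ∈ Icc x1 0 → |f x - f y| ≤
      4 / (1 - L) * |x - y|) → ContinuousOn f (Icc x1 0) := by
    intro f hf
    have : LipschitzOnWith (Real.toNNReal (4 / (1 - L))) f (Icc x1 0) := by
      refine LipschitzOnWith.of_dist_le_mul fun x hx y hy => ?_
      rw [Real.dist_eq, Real.dist_eq]
      refine (hf x y hx hy).trans ?_
      exact mul_le_mul_of_nonneg_right (Real.le_coe_toNNReal _) (abs_nonneg _)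
    exact this.continuousOn
  have cd := contL dd fun x y hx hy => (step x y hx hy).1
  have cl := contL ll fun x y hx hy => (step x y hx hy).2
  have cX : ContinuousOn (fun x => x + dd x + ll x) (Icc x1 0) :=
    (continuousOn_id.add cd).add cl
  have ch : ContinuousOn (fun x => T x + dd x - ll x - B (x + dd x + ll x)) (Icc x1 0) :=
    (((hT.cont.continuousOn).add cd).sub cl).sub (hB.cont.comp_continuousOn cX)
  have pos : ∀ x ∈ Ico x1 0, 0 < T x + dd x - ll x - B (x + dd x + ll x) := by
    intro x hx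
    by_contra hneg
    push Not at hneg
    obtain ⟨z, hz, hz0⟩ := intermediate_value_Icc' hx.1 (ch.mono (Icc_subset_Icc_right hx.2.le))
      (show (0:ℝ) ∈ Icc _ _ from ⟨hneg, by linarith⟩)
    simp only at hz0
    exact hne z (dd z) (ll z) (by linarith [hz.1]) (lt_of_le_of_lt hz.2 hx.2)
      (hS z ⟨by linarith [hz.1], hz.2.trans hx.2.le⟩) (by linarith)
  have S0 : ESq T B 0 0 0 :=
    ⟨le_rfl, by rw [add_zero, add_zero], by rw [add_zero, hT0 0 le_rfl, hB0 0 le_rfl, sub_zero]⟩
  obtain ⟨z1, z2⟩ := uniq _ _ _ _ _ S0 (hS 0 ⟨by linarith, le_rfl⟩)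
  -- the last vertex is to the left of the origin
  have hX1 : x1 + dd x1 + ll x1 < 0 := by
    by_contra h
    push Not at h
    have hd := S1.d_le hT
    have lpos : 0 < ll x1 := by
      refine lt_of_le_of_ne S1.l0 fun h0 => ?_
      rw [← h0, mul_zero] at hd
      have hd0 : dd x1 = 0 := abs_eq_zero.1 (le_antisymm hd (abs_nonneg _))
      have := S1.h2
      rw [hd0, ← h0, add_zero, sub_zero] at this
      exact absurd this (hTB x1 hx1 hx1').ne
    have t1 := (abs_le.1 (hT (x1 + dd x1 + ll x1) (x1 + ll x1))).1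
    rw [hT0 _ h, S1.h3, show x1 + dd x1 + ll x1 - (x1 + ll x1) = dd x1 by ring] at t1
    rw [hB0 _ h] at hgt
    have := mul_le_mul_of_nonneg_left hd L0
    have u1 : L * ll x1 < 1 * ll x1 := mul_lt_mul_of_pos_right L1 lpos
    have u2 : L * (L * ll x1) ≤ 1 * (L * ll x1) :=
      mul_le_mul_of_nonneg_right L1.le (mul_nonneg L0 lpos.le)
    have : L * (L * ll x1) < ll x1 := by linarith
    linarith
  obtain ⟨xs, hxs, hmin⟩ := (isCompact_Icc (a := x1) (b := 0)).exists_isMinOn
    ⟨x1, le_rfl, hx1'.le⟩ cX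
  have hX0 : xs + dd xs + ll xs < 0 := lt_of_le_of_lt (hmin ⟨le_rfl, hx1'.le⟩) hX1
  have hxs0 : xs < 0 := by
    refine lt_of_le_of_ne hxs.2 fun h => ?_
    rw [h, z1, z2] at hX0
    simp at hX0
  have P := path' hT hB L0 L1 (xs := xs) (xe := 0) (dd := dd) (ll := ll) hxs.2
    (fun x hx => hS x ⟨by linarith [hx.1, hxs.1], hx.2⟩)
    (fun x hx => by
      rcases lt_or_eq_of_le hx.2 with h | h
      · exact (pos x ⟨by linarith [hx.1, hxs.1], h⟩).le
      · rw [h, z1, z2, hT0 0 le_rfl]
        simp [hB0 0 le_rfl])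
    (fun x hx => hmin ⟨by linarith [hx.1, hxs.1], hx.2⟩)
    (by rw [z1, z2, hT0 0 le_rfl]; simp [hB0 0 le_rfl])
  have Ss := hS xs ⟨by linarith [hxs.1], hxs.2⟩
  have lo := Ss.pot_lower hT hB
  have hp := pos xs ⟨hxs.1, hxs0⟩
  have e0 : Pot T B 0 (dd 0) (ll 0) = 0 := by
    rw [z1, z2]; unfold Pot; simp
  rw [e0] at P
  have lpos : 0 < ll xs := by
    refine lt_of_le_of_ne Ss.l0 fun h0 => ?_
    have hd := Ss.d_le hT
    rw [← h0, mul_zero] at hd
    have hd0 : dd xs = 0 := abs_eq_zero.1 (le_antisymm hd (abs_nonneg _))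
    have := Ss.h2
    rw [hd0, ← h0, add_zero, sub_zero] at this
    exact absurd this (hTB xs (by linarith [hxs.1]) hxs0).ne
  have a1 : 0 < (1 - L) * ll xs ^ 2 / 2 := by positivity
  have a2 : 0 < ll xs * (T xs + dd xs - ll xs - B (xs + dd xs + ll xs)) / 2 := by positivity
  linarith

end Pool.Agent.U333.Peg
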