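import Pool.Agent.U333.Peg.Tang
import Pool.Agent.H145R2.TRobust

/-! Curves that are locally monotone or folded. -/

set_option autoImplicit false
open Set Topology Complex

namespace Pool.Agent.U333.Peg

open Pool.Agent.H763R2.An Pool.Agent.Y535.PEG
open Pool.Agent.H763R2.Dm (NoSq)

variable {c : ℝ → ℂ}

theorem loc_of_mon (h : ∀ t, Mon c t) : H145R2.TSq.LocMono c := by
  intro t
  obtain ⟨ρ, hρ, w, H⟩ := h t
  have hw : w ≠ 0 := by
    rintro rfl
    have := H t (t + ρ / 2) (by simpa using hρ) (by rw [add_sub_cancel_left, abs_of_pos (by positivity)]; linarith) (by linarith)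
    simp at this
  set φ : ℂ →L[ℝ] ℝ := reCLM.comp (ContinuousLinearMap.mul ℝ ℂ w) with hφ
  have e : ∀ z, φ z = (w * z).re := fun z => by simp [hφ]
  refine ⟨φ, univ, Filter.univ_mem, 0, fun z _ => φ.differentiableAt, ?_, ?_, ρ, hρ, ?_⟩
  · have : fderiv ℝ (φ : ℂ → ℝ) = fun _ => φ := by
      funext z; exact φ.fderiv
    rw [this]
    exact (LipschitzWith.const _).lipschitzOnWith
  · rw [φ.fderiv]
    intro h0
    have := e ((starRingEnd ℂ) w)
    rw [h0, mul_conj] at this
    simp at this
    exact hw (normSq_eq_zero.1 this.symm)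
  · intro x hx y hy hxy
    simp only
    rw [e, e]
    rcases lt_or_eq_of_le hxy with h1 | h1
    · have := H x y (by rw [abs_lt]; constructor <;> linarith [hx.1, hx.2])
        (by rw [abs_lt]; constructor <;> linarith [hy.1, hy.2]) h1
      rw [mul_sub, sub_re] at this
      linarith
    · rw [h1]

theorem jor (L : Loop c) (J : Inj c) : H145R2.TSq.Jor c where
  cont := L.cont
  per := L.per
  inj s t h := by
    refine ⟨⌊s⌋ - ⌊t⌋, ?_⟩
    have e1 := L.per_int (Int.fract s) ⌊s⌋
    have e2 := L.per_int (Int.fract t) ⌊t⌋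
    rw [Int.fract_add_floor] at e1 e2
    have e3 : c (Int.fract s) = c (Int.fract t) := by rw [← e1, ← e2, h]
    have a1 := Int.fract_nonneg s
    have a2 := Int.fract_lt_one s
    have b1 := Int.fract_nonneg t
    have b2 := Int.fract_lt_one t
    have e4 : Int.fract s = Int.fract t := by
      rcases lt_trichotomy (Int.fract s) (Int.fract t) with h1 | h1 | h1
      · exact absurd e3 (J _ _ h1 (by linarith))
      · exact h1
      · exact absurd e3.symm (J _ _ h1 (by linarith))
    have := Int.fract_add_floor s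
    have := Int.fract_add_floor t
    push_cast
    linarith

theorem inj_of (L : Loop c) (hinj : Set.InjOn c (Set.Ico 0 1)) : Inj c := by
  intro x y hx hy h
  have e : ∀ t, c (Int.fract t) = c t := fun t => by
    have := L.per_int (Int.fract t) ⌊t⌋
    rw [Int.fract_add_floor] at this
    exact this.symm
  have h3 := hinj ⟨Int.fract_nonneg x, Int.fract_lt_one x⟩
    ⟨Int.fract_nonneg y, Int.fract_lt_one y⟩ (by rw [e, e, h])
  obtain ⟨n, hn⟩ := Int.fract_eq_fract.1 h3
  have h4 : (n : ℝ) < 0 := by rw [← hn]; linarith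
  have h5 : (-1 : ℝ) < n := by rw [← hn]; linarith
  have h6 : n < 0 := by exact_mod_cast h4
  have h7 : -1 < n := by exact_mod_cast h5
  omega

/-- a curve that is locally monotone or folded at every point has an inscribed square -/
theorem main (L : Loop c) (J : Inj c) (h : ∀ t, Mon c t ∨ Folded c t) :
    ∃ z w : ℂ, w ≠ 0 ∧ z ∈ range c ∧ z + w ∈ range c ∧ z + w + I * w ∈ range c ∧
      z + I * w ∈ range c := by
  by_cases h' : ∀ t, Mon c t
  · obtain ⟨ε, hε, H⟩ := H145R2.TSq.main_robust (jor L J) (loc_of_mon h')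
    exact H c (jor L J) (fun t => by simpa using hε.le)
  · push Not at h'
    obtain ⟨m, hm⟩ := h'
    have := main_fold L J h hm
    rwa [NoSq, not_not] at this

end Pool.Agent.U333.Peg
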