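import Pool.Agent.U333.Peg.Glob

/-! Strict one-sided tangents. -/

set_option autoImplicit false
open Set Topology Complex

namespace Pool.Agent.U333.Peg

open Pool.Agent.H763R2.An Pool.Agent.Y535.PEG
open Pool.Agent.H763R2.Dm (NoSq)

variable {c : ℝ → ℂ} {t : ℝ} {S : Set ℝ} {u v w d : ℂ}

/-- the directions of the short chords with endpoints in `S` tend to `u` -/
def Side (c : ℝ → ℂ) (S : Set ℝ) (t : ℝ) (u : ℂ) : Prop := ∀ ε > 0, ∃ ρ > 0, ∀ x ∈ S, ∀ y ∈ S,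
  |x - t| < ρ → |y - t| < ρ → x < y → ‖c y - c x - ‖c y - c x‖ * u‖ ≤ ε * ‖c y - c x‖

theorem side_mul {ε : ℝ} (h : ‖d - ‖d‖ * u‖ ≤ ε * ‖d‖) :
    |(w * d).re - ‖d‖ * (w * u).re| ≤ ‖w‖ * (ε * ‖d‖) ∧
    |(w * d).im - ‖d‖ * (w * u).im| ≤ ‖w‖ * (ε * ‖d‖) := by
  have e : w * (d - ‖d‖ * u) = w * d - ‖d‖ * (w * u) := by ring
  have h1 : ‖w * (d - ‖d‖ * u)‖ ≤ ‖w‖ * (ε * ‖d‖) := by
    rw [norm_mul]; exact mul_le_mul_of_nonneg_left h (norm_nonneg _)
  rw [e] at h1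
  constructor
  · have := (abs_re_le_norm _).trans h1
    rwa [sub_re, re_ofReal_mul] at this
  · have := (abs_im_le_norm _).trans h1
    rwa [sub_im, im_ofReal_mul] at this

theorem side_pos {ε : ℝ} (h : ‖d - ‖d‖ * u‖ ≤ ε * ‖d‖) (hd : d ≠ 0) (hε : ‖w‖ * ε < (w * u).re) :
    0 < (w * d).re := by
  have h1 := (abs_le.1 (side_mul (w := w) h).1).1
  have h2 := norm_pos_iff.2 hd
  nlinarith

theorem side_fold {ε : ℝ} (h : ‖d - ‖d‖ * u‖ ≤ ε * ‖d‖) (hu : ‖u‖ = 1) (hε : ε ≤ 1 / 4) :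
    |((starRingEnd ℂ) u * d).im| ≤ 1 / 2 * ((starRingEnd ℂ) u * d).re := by
  obtain ⟨h1, h2⟩ := side_mul (w := (starRingEnd ℂ) u) h
  have e : (starRingEnd ℂ) u * u = 1 := by
    rw [mul_comm, mul_conj, normSq_eq_norm_sq, hu]; simp
  rw [e, one_re] at h1
  rw [e, one_im] at h2
  rw [norm_conj, hu] at h1 h2
  have h3 := norm_nonneg d
  have h4 := (abs_le.1 h1).1
  have h5 := abs_le.1 h2
  have h6 : ε * ‖d‖ ≤ 1 / 4 * ‖d‖ := mul_le_mul_of_nonneg_right hε h3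
  rw [abs_le]
  constructor <;> linarith

theorem strict_fold (hu : ‖u‖ = 1) (hl : Side c (Iic t) t u) (hr : Side c (Ici t) t (-u)) :
    Folded c t := by
  obtain ⟨ρ1, hρ1, H1⟩ := hl (1 / 4) (by norm_num)
  obtain ⟨ρ2, hρ2, H2⟩ := hr (1 / 4) (by norm_num)
  refine ⟨(starRingEnd ℂ) u, ?_, 1 / 2, by norm_num, by norm_num, min ρ1 ρ2, lt_min hρ1 hρ2,
    fun x y h1 h2 h3 => ?_, fun x y h1 h2 h3 => ?_⟩
  · rw [Ne, map_eq_zero]
    rintro rfl
    simp at hu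
  · have m := min_le_left ρ1 ρ2
    exact side_fold (H1 x (by simp only [mem_Iic]; linarith) y h3
      (by rw [abs_lt]; constructor <;> linarith) (by rw [abs_lt]; constructor <;> linarith) h2) hu
      le_rfl
  · have m := min_le_right ρ1 ρ2
    have := H2 x h1 y (by simp only [mem_Ici]; linarith)
      (by rw [abs_lt]; constructor <;> linarith) (by rw [abs_lt]; constructor <;> linarith) h2
    have e : ‖c x - c y - ‖c x - c y‖ * u‖ ≤ 1 / 4 * ‖c x - c y‖ := by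
      have q : c x - c y - ‖c x - c y‖ * u = -(c y - c x - ‖c y - c x‖ * -u) := by
        rw [norm_sub_rev (c x) (c y)]; ring
      rw [q, norm_neg, norm_sub_rev (c x) (c y)]
      exact this
    exact side_fold e hu le_rfl

theorem strict_mon (J : Inj c) (hu : ‖u‖ = 1) (hv : ‖v‖ = 1) (huv : v ≠ -u)
    (hl : Side c (Iic t) t u) (hr : Side c (Ici t) t v) : Mon c t := by
  obtain ⟨w, hw⟩ : ∃ w, w = (starRingEnd ℂ) (u + v) := ⟨_, rfl⟩
  have nu : u.re * u.re + u.im * u.im = 1 := by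
    have := normSq_eq_norm_sq u
    rw [normSq_apply, hu] at this
    linarith
  have nv : v.re * v.re + v.im * v.im = 1 := by
    have := normSq_eq_norm_sq v
    rw [normSq_apply, hv] at this
    linarith
  have e1 : (w * u).re = (w * v).re := by
    rw [hw]; simp; linarith
  have e2 : 0 < (w * u).re := by
    have h1 : 0 < normSq (u + v) := by
      rw [normSq_pos]
      intro h
      exact huv (eq_neg_of_add_eq_zero_right h)
    rw [normSq_apply] at h1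
    rw [hw]
    simp at h1 ⊢
    nlinarith
  have w0 : 0 < ‖w‖ := by
    rw [norm_pos_iff]
    rintro h
    rw [h] at e2
    simp at e2
  obtain ⟨ε, hε, hε1⟩ : ∃ ε > 0, ‖w‖ * ε < (w * u).re := by
    refine ⟨(w * u).re / (2 * ‖w‖), by positivity, ?_⟩
    rw [mul_div_assoc', div_lt_iff₀ (by positivity)]
    nlinarith [mul_pos w0 e2]
  obtain ⟨ρ1, hρ1, H1⟩ := hl ε hε
  obtain ⟨ρ2, hρ2, H2⟩ := hr ε hε
  refine ⟨min (min ρ1 ρ2) (1 / 2), by positivity, w, fun x y hx hy hxy => ?_⟩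
  obtain ⟨hx12, hx3⟩ := lt_min_iff.1 hx
  obtain ⟨hy12, hy3⟩ := lt_min_iff.1 hy
  obtain ⟨hx1, hx2⟩ := lt_min_iff.1 hx12
  obtain ⟨hy1, hy2⟩ := lt_min_iff.1 hy12
  have hx4 := abs_lt.1 hx3
  have hy4 := abs_lt.1 hy3
  have pl : ∀ x y, x < y → y ≤ t → |x - t| < ρ1 → |y - t| < ρ1 → y < x + 1 →
      0 < (w * (c y - c x)).re := fun x y h1 h2 h3 h4 h5 =>
    side_pos (H1 x (by simp only [mem_Iic]; linarith) y h2 h3 h4 h1)
      (sub_ne_zero.2 (J x y h1 h5).symm) hε1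
  have pr : ∀ x y, x < y → t ≤ x → |x - t| < ρ2 → |y - t| < ρ2 → y < x + 1 →
      0 < (w * (c y - c x)).re := fun x y h1 h2 h3 h4 h5 =>
    side_pos (H2 x h2 y (by simp only [mem_Ici]; linarith) h3 h4 h1)
      (sub_ne_zero.2 (J x y h1 h5).symm) (by rw [← e1]; exact hε1)
  rcases le_or_gt y t with h | h
  · exact pl x y hxy h hx1 hy1 (by linarith)
  · rcases le_or_gt t x with h' | h'
    · exact pr x y hxy h' hx2 hy2 (by linarith)
    · have a1 := pl x t h' le_rfl hx1 (by simpa using hρ1) (by linarith)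
      have a2 := pr t y h le_rfl (by simpa using hρ2) hy2 (by linarith)
      have e : w * (c y - c x) = w * (c y - c t) + w * (c t - c x) := by ring
      rw [e, add_re]
      linarith

theorem strict (J : Inj c) (hu : ‖u‖ = 1) (hv : ‖v‖ = 1)
    (hl : Side c (Iic t) t u) (hr : Side c (Ici t) t v) : Mon c t ∨ Folded c t := by
  by_cases h : v = -u
  · rw [h] at hr
    exact Or.inr (strict_fold hu hl hr)
  · exact Or.inl (strict_mon J hu hv h hl hr)

/-- a strict one-sided derivative -/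
def SD (c : ℝ → ℂ) (S : Set ℝ) (t : ℝ) (a : ℂ) : Prop := ∀ ε > 0, ∃ ρ > 0, ∀ x ∈ S, ∀ y ∈ S,
  |x - t| < ρ → |y - t| < ρ → x < y → ‖c y - c x - (y - x : ℝ) * a‖ ≤ ε * (y - x)

theorem SD.side {a : ℂ} (ha : a ≠ 0) (h : SD c S t a) : Side c S t (a / ‖a‖) := by
  intro ε hε
  have a0 := norm_pos_iff.2 ha
  obtain ⟨η, hη, hη1⟩ : ∃ η > 0, η ≤ ε ∧ η ≤ 1 := ⟨min ε 1, by positivity, min_le_left _ _,
    min_le_right _ _⟩
  obtain ⟨ρ, hρ, H⟩ := h (η * ‖a‖ / 4) (by positivity)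
  refine ⟨ρ, hρ, fun x hx y hy h1 h2 hxy => ?_⟩
  have h3 := H x hx y hy h1 h2 hxy
  have yx : 0 < y - x := by linarith
  set d := c y - c x with hd
  have h4 : |‖d‖ - (y - x) * ‖a‖| ≤ η * ‖a‖ / 4 * (y - x) := by
    have := abs_norm_sub_norm_le d ((y - x : ℝ) * a)
    rw [norm_mul, norm_real, Real.norm_eq_abs, abs_of_pos yx] at this
    exact this.trans h3
  have h5 : ‖d - ‖d‖ * (a / ‖a‖)‖ ≤ η * ‖a‖ / 4 * (y - x) + η * ‖a‖ / 4 * (y - x) := by
    have e : d - ‖d‖ * (a / ‖a‖) = (d - (y - x : ℝ) * a) +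
        ((((y - x) * ‖a‖ - ‖d‖ : ℝ) : ℂ) * (a / ‖a‖)) := by
      have : (‖a‖ : ℂ) ≠ 0 := by exact_mod_cast a0.ne'
      push_cast
      field_simp
      ring
    rw [e]
    refine (norm_add_le _ _).trans (add_le_add h3 ?_)
    rw [norm_mul, norm_div, norm_real, norm_real, norm_norm, div_self a0.ne', mul_one,
      Real.norm_eq_abs, abs_sub_comm]
    exact h4
  have h6 := (abs_le.1 h4).1
  have h7 : η * (η * ‖a‖ / 4 * (y - x)) ≤ 1 * (η * ‖a‖ / 4 * (y - x)) :=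
    mul_le_mul_of_nonneg_right hη1.2 (by positivity)
  have h8 : 0 ≤ η * ‖a‖ * (y - x) := by positivity
  have h9 : η * ‖d‖ ≤ ε * ‖d‖ := mul_le_mul_of_nonneg_right hη1.1 (norm_nonneg _)
  nlinarith

/-- continuously differentiable arcs -/
theorem sd_of_c1 {a b : ℝ} (hab : a < b) (hc : ContDiffOn ℝ 1 c (Icc a b)) (ht : t ∈ Icc a b)
    {S : Set ℝ} (hS : ∃ ρ > 0, ∀ x ∈ S, |x - t| < ρ → x ∈ Icc a b) :
    SD c S t (derivWithin c (Icc a b) t) := by
  intro ε hε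
  obtain ⟨ρ0, hρ0, hS⟩ := hS
  have hu : UniqueDiffOn ℝ (Icc a b) := uniqueDiffOn_Icc hab
  have hcont := hc.continuousOn_derivWithin hu le_rfl
  have h1 := hcont t ht
  rw [Metric.continuousWithinAt_iff] at h1
  obtain ⟨δ, hδ, h1⟩ := h1 ε hε
  have hd : DifferentiableOn ℝ c (Icc a b) := hc.differentiableOn one_ne_zero
  refine ⟨min ρ0 δ, lt_min hρ0 hδ, fun x hx y hy hxt hyt hxy => ?_⟩
  obtain ⟨hx1, hx2⟩ := lt_min_iff.1 hxt
  obtain ⟨hy1, hy2⟩ := lt_min_iff.1 hyt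
  have hxm := hS x hx hx1
  have hym := hS y hy hy1
  set v := derivWithin c (Icc a b) t with hv
  have hsub : Icc x y ⊆ Icc a b := Icc_subset_Icc hxm.1 hym.2
  have := (convex_Icc x y).norm_image_sub_le_of_norm_hasDerivWithin_le
    (f := fun s => c s - (s : ℂ) * v) (f' := fun s => derivWithin c (Icc a b) s - v) (C := ε)
    (x := x) (y := y) (fun s hs => by
      have e1 := ((hd s (hsub hs)).hasDerivWithinAt).mono hsub
      have e2 : HasDerivWithinAt (fun s : ℝ => (s : ℂ) * v) v (Icc x y) s := by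
        have := ((hasDerivAt_id s).ofReal_comp.mul_const v).hasDerivWithinAt (s := Icc x y)
        simpa using this
      exact e1.sub e2) (fun s hs => by
      have hst : |s - t| < δ := by
        rw [abs_lt] at hx2 hy2 ⊢
        constructor <;> linarith [hs.1, hs.2]
      have := h1 (hsub hs) (by rw [Real.dist_eq]; exact hst)
      rw [dist_eq_norm] at this
      exact this.le) (left_mem_Icc.2 hxy.le) (right_mem_Icc.2 hxy.le)
  rw [Real.norm_eq_abs, abs_of_pos (by linarith)] at this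
  have q : c y - c x - ((y - x : ℝ) : ℂ) * v = (c y - (y : ℂ) * v) - (c x - (x : ℂ) * v) := by
    push_cast; ring
  rw [q]
  exact this

theorem c1_strict (J : Inj c) {ρ : ℝ} (hρ : 0 < ρ) (h1 : ContDiffOn ℝ 1 c (Icc (t - ρ) t))
    (h2 : derivWithin c (Icc (t - ρ) t) t ≠ 0) (h3 : ContDiffOn ℝ 1 c (Icc t (t + ρ)))
    (h4 : derivWithin c (Icc t (t + ρ)) t ≠ 0) : Mon c t ∨ Folded c t := by
  have s1 := (sd_of_c1 (S := Iic t) (by linarith) h1 ⟨by linarith, le_rfl⟩ ⟨ρ, hρ, fun x hx h =>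
    ⟨by linarith [(abs_lt.1 h).1], hx⟩⟩).side h2
  have s2 := (sd_of_c1 (S := Ici t) (by linarith) h3 ⟨le_rfl, by linarith⟩ ⟨ρ, hρ, fun x hx h =>
    ⟨hx, by linarith [(abs_lt.1 h).2]⟩⟩).side h4
  refine strict J ?_ ?_ s1 s2
  · rw [norm_div, norm_real, norm_norm, div_self (norm_ne_zero_iff.2 h2)]
  · rw [norm_div, norm_real, norm_norm, div_self (norm_ne_zero_iff.2 h4)]

end Pool.Agent.U333.Peg
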