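import Pool.Agent.U333.Peg.K2
import Pool.Agent.H763R2.An.A

/-! A closed set of the plane that near the origin is a wedge formed by two graphs of Lipschitz
constant less than `1`. -/

set_option autoImplicit false
open Set Topology Complex

namespace Pool.Agent.U333.Peg

open Pool.Agent.Y450.Stab
open Pool.Agent.H763R2.Dm (NoSq)

/-- near the origin `S` consists of two graphs over the negative half line -/
structure Wd (S : Set ℂ) (T B : ℝ → ℝ) (L r R : ℝ) : Prop where
  hT : Lip L T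
  hB : Lip L B
  L0 : 0 ≤ L
  L1 : L < 1
  r0 : 0 < r
  R0 : 0 < R
  Rr : R ≤ r
  T0 : ∀ x, 0 ≤ x → T x = 0
  B0 : ∀ x, 0 ≤ x → B x = 0
  TB : ∀ x, -r ≤ x → x < 0 → B x < T x
  tS : ∀ x, -r ≤ x → x ≤ 0 → (⟨x, T x⟩ : ℂ) ∈ S
  bS : ∀ x, -r ≤ x → x ≤ 0 → (⟨x, B x⟩ : ℂ) ∈ S
  loc : ∀ z ∈ S, |z.re| < R → |z.im| < R → z.re ≤ 0 ∧ (z.im = T z.re ∨ z.im = B z.re)

variable {S : Set ℂ} {T B : ℝ → ℝ} {L r R : ℝ}

theorem Wd.TB' (W : Wd S T B L r R) {x : ℝ} (hx : -r ≤ x) : B x ≤ T x := by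
  rcases lt_or_ge x 0 with h | h
  · exact (W.TB x hx h).le
  · rw [W.T0 x h, W.B0 x h]

theorem Wd.mirror (W : Wd S T B L r R) :
    Wd {z | (starRingEnd ℂ) z ∈ S} (fun x => -B x) (fun x => -T x) L r R where
  hT x y := by
    have := W.hB x y
    rwa [← abs_neg, show -(-B x - -B y) = B x - B y by ring]
  hB x y := by
    have := W.hT x y
    rwa [← abs_neg, show -(-T x - -T y) = T x - T y by ring]
  L0 := W.L0
  L1 := W.L1
  r0 := W.r0
  R0 := W.R0
  Rr := W.Rr
  T0 x h := by rw [W.B0 x h, neg_zero]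
  B0 x h := by rw [W.T0 x h, neg_zero]
  TB x h1 h2 := neg_lt_neg (W.TB x h1 h2)
  tS x h1 h2 := by
    have : (starRingEnd ℂ) (⟨x, -B x⟩ : ℂ) = ⟨x, B x⟩ := by
      apply Complex.ext <;> simp
    show (starRingEnd ℂ) (⟨x, -B x⟩ : ℂ) ∈ S
    rw [this]
    exact W.bS x h1 h2
  bS x h1 h2 := by
    have : (starRingEnd ℂ) (⟨x, -T x⟩ : ℂ) = ⟨x, T x⟩ := by
      apply Complex.ext <;> simp
    show (starRingEnd ℂ) (⟨x, -T x⟩ : ℂ) ∈ S
    rw [this]
    exact W.tS x h1 h2
  loc z hz h1 h2 := by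
    have h3 : |((starRingEnd ℂ) z).re| < R := by simpa using h1
    have h4 : |((starRingEnd ℂ) z).im| < R := by simpa using h2
    obtain ⟨a1, a2⟩ := W.loc _ hz h3 h4
    rw [conj_re] at a1 a2
    rw [conj_im] at a2
    refine ⟨a1, ?_⟩
    rcases a2 with h | h
    · exact Or.inr (by linarith)
    · exact Or.inl (by linarith)

theorem nosq_mirror (h : NoSq S) : NoSq {z | (starRingEnd ℂ) z ∈ S} := by
  rintro ⟨z, w, hw, h1, h2, h3, h4⟩
  refine h ⟨(starRingEnd ℂ) z + (starRingEnd ℂ) (I * w), (starRingEnd ℂ) w, ?_, ?_, ?_, ?_, ?_⟩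
  · simpa using hw
  · have := h4
    simp only [mem_ofPred_eq, map_add] at this
    exact this
  · have := h3
    simp only [mem_ofPred_eq, map_add] at this
    convert this using 1
    ring
  · have := h2
    simp only [mem_ofPred_eq, map_add] at this
    convert this using 1
    rw [map_mul, conj_I]
    ring
  · have := h1
    simp only [mem_ofPred_eq] at this
    convert this using 1
    rw [map_mul, conj_I]
    ring

/-- the width of the part of the wedge in which the squares are inside the domain -/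
noncomputable def r1 (L r : ℝ) : ℝ := r * (1 - L ^ 2) / 3

theorem Wd.r1_pos (W : Wd S T B L r R) : 0 < r1 L r := by
  have h1 := W.L0
  have h2 := W.L1
  have h3 := W.r0
  have : 0 < 1 - L ^ 2 := by nlinarith
  unfold r1; positivity

theorem Wd.r1_le (W : Wd S T B L r R) : r1 L r ≤ r := by
  have h3 := W.r0
  unfold r1
  nlinarith [sq_nonneg L, mul_nonneg h3.le (sq_nonneg L)]

theorem Wd.abs_T (W : Wd S T B L r R) {x : ℝ} (hx : x ≤ 0) : |T x| ≤ L * -x := by
  have := W.hT x 0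
  rwa [W.T0 0 le_rfl, sub_zero, sub_zero, abs_of_nonpos hx] at this

theorem Wd.abs_B (W : Wd S T B L r R) {x : ℝ} (hx : x ≤ 0) : |B x| ≤ L * -x := by
  have := W.hB x 0
  rwa [W.B0 0 le_rfl, sub_zero, sub_zero, abs_of_nonpos hx] at this

theorem Wd.k2 (W : Wd S T B L r R) (nosq : NoSq S) : ∀ x d l, -r1 L r ≤ x → x < 0 →
    ESq T B x d l → T x + d - l < B (x + d + l) := by
  have q0 : 0 < 1 - L ^ 2 := by nlinarith [W.L0, W.L1]
  refine U333.Peg.k2 W.hT W.hB W.L0 W.L1 (r := r1 L r) W.T0 W.B0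
    (fun x h1 h2 => W.TB x (by linarith [W.r1_le]) h2) ?_
  intro x d l hx hx0 E he
  have l0 := E.l0
  have hd := E.d_le W.hT
  have hl := E.l_le W.hT W.hB W.L0
  have L0 := W.L0
  have L1 := W.L1
  have hTB := W.TB x (by linarith [W.r1_le]) hx0
  have lpos : 0 < l := by
    refine lt_of_le_of_ne l0 fun h0 => ?_
    rw [← h0, mul_zero] at hd
    have hd0 : d = 0 := abs_eq_zero.1 (le_antisymm hd (abs_nonneg _))
    have := E.h2
    rw [hd0, ← h0, add_zero, sub_zero] at this
    exact absurd this hTB.ne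
  have u1 : L * l < l := by nlinarith
  have u2 : L * |d| < l := by
    have := mul_le_mul_of_nonneg_left hd L0
    nlinarith
  have d1 := abs_le.1 (hd.trans u1.le)
  -- the right vertices are on the left of the origin
  have c1 : x + l ≤ 0 := by
    by_contra h
    push Not at h
    have h3 := E.h3
    rw [W.T0 _ h.le] at h3
    have t1 := (abs_le.1 (W.hB (x + d + l) (x + l))).1
    rw [W.B0 _ h.le, show x + d + l - (x + l) = d by ring] at t1
    linarith
  have c2 : x + d + l ≤ 0 := by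
    by_contra h
    push Not at h
    have t1 := (abs_le.1 (W.hT (x + d + l) (x + l))).1
    rw [W.T0 _ h.le, E.h3, show x + d + l - (x + l) = d by ring] at t1
    rw [W.B0 _ h.le] at he
    linarith
  -- and on the right of the left end
  have tb : T x - B x ≤ 2 * -x := by
    have a1 := (abs_le.1 (W.abs_T hx0.le)).2
    have a2 := (abs_le.1 (W.abs_B hx0.le)).1
    nlinarith
  have hx' : 3 * -x ≤ r * (1 - L ^ 2) := by
    have : -x ≤ r * (1 - L ^ 2) / 3 := by
      have := hx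
      unfold r1 at this
      linarith
    linarith
  have b1 : -x + l ≤ r := by
    have e1 : (1 - L ^ 2) * (-x + l) ≤ (1 - L ^ 2) * r := by nlinarith [sq_nonneg L]
    exact le_of_mul_le_mul_left e1 q0
  refine nosq ⟨⟨x + d, B (x + d)⟩, ⟨l, d⟩, ?_, W.bS _ (by linarith [d1.1]) (by linarith), ?_, ?_, ?_⟩
  · intro h
    have := congrArg Complex.re h
    simp at this
    linarith
  · have e : (⟨x + d, B (x + d)⟩ + ⟨l, d⟩ : ℂ) = ⟨x + d + l, B (x + d + l)⟩ := by
      apply Complex.ext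
      · simp
      · simp; rw [← he, E.h2]; ring
    rw [e]
    exact W.bS _ (by linarith [d1.1]) c2
  · have e : (⟨x + d, B (x + d)⟩ + ⟨l, d⟩ + I * ⟨l, d⟩ : ℂ) = ⟨x + l, T (x + l)⟩ := by
      apply Complex.ext
      · simp; ring
      · simp; rw [E.h3, E.h2]; ring
    rw [e]
    exact W.tS _ (by linarith) c1
  · have e : (⟨x + d, B (x + d)⟩ + I * ⟨l, d⟩ : ℂ) = ⟨x, T x⟩ := by
      apply Complex.ext
      · simp
      · simp; rw [E.h2]; ring
    rw [e]
    exact W.tS _ (by linarith) hx0.le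

/-- the right triangles with the right angle on the upper side and their other vertices on the
lower side and on one of the sides -/
theorem Wd.geo (W : Wd S T B L r R) (nosq : NoSq S) {x p l : ℝ} (hx : -r1 L r ≤ x) (hx0 : x < 0)
    (hp : 0 ≤ p) (hl : l = T x - B (x + p))
    (hlr : -r ≤ x + l) (h : T (x + l) = T x + p ∨ B (x + l) = T x + p) :
    T x + p - l < B (x + p + l) := by
  have L0 := W.L0
  have L1 := W.L1
  have h2 : B (x + p) = T x - l := by linarith
  have hTB := W.TB x (by linarith [W.r1_le]) hx0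
  have hT' : T x + p ≤ T (x + l) := by
    rcases h with h | h
    · exact h.ge
    · rw [← h]; exact W.TB' hlr
  have a1 := (abs_le.1 (W.hT (x + l) x)).2
  rw [show x + l - x = l by ring] at a1
  have hpl : p ≤ L * |l| := by linarith
  have l0 : 0 < l := by
    by_contra hn
    push Not at hn
    have b1 := (abs_le.1 (W.hT (x + p) x)).2
    rw [show x + p - x = p by ring, abs_of_nonneg hp] at b1
    have b2 := W.TB' (x := x + p) (by linarith [W.r1_le])
    rw [abs_of_nonpos hn] at hpl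
    have b3 : -l ≤ L * p := by linarith
    have b4 : p ≤ L * (L * p) := by nlinarith
    have b5 : p = 0 := by nlinarith
    have b6 : l = 0 := by
      rw [b5] at b3; linarith
    rw [b5, b6, add_zero] at h2
    linarith
  rw [abs_of_pos l0] at hpl
  rcases h with h | h
  · exact W.k2 nosq x p l hx hx0 ⟨l0.le, h, h2⟩
  · have b1 := (abs_le.1 (W.hB (x + p + l) (x + l))).1
    rw [show x + p + l - (x + l) = p by ring, h, abs_of_nonneg hp] at b1
    have : L * p < l := by nlinarith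
    linarith

/-- a function that vanishes exactly on `S` has a constant sign outside the wedge -/
theorem Wd.sign (W : Wd S T B L r R) {M : ℂ → ℝ} (hM : Continuous M) (h0 : ∀ z, M z = 0 → z ∈ S) :
    ∃ σ : ℝ, (σ = 1 ∨ σ = -1) ∧ ∀ z : ℂ, |z.re| < R → |z.im| < R →
      (T z.re < z.im ∨ z.im < B z.re) → 0 < σ * M z := by
  have R0 := W.R0
  have hTR : ∀ x, |x| < R → |T x| < R := by
    intro x hx
    have := W.hT x 0
    rw [W.T0 0 le_rfl, sub_zero, sub_zero] at this
    nlinarith [abs_nonneg x, W.L0, W.L1]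
  have hBR : ∀ x, |x| < R → |B x| < R := by
    intro x hx
    have := W.hB x 0
    rw [W.B0 0 le_rfl, sub_zero, sub_zero] at this
    nlinarith [abs_nonneg x, W.L0, W.L1]
  obtain ⟨U, hU⟩ : ∃ U : Set ℂ, U = (fun p : ℝ × ℝ => (⟨p.1, T p.1 + p.2 * (R - T p.1)⟩ : ℂ)) ''
    (Ioo (-R) R ×ˢ Ioo 0 1) := ⟨_, rfl⟩
  obtain ⟨D, hD⟩ : ∃ D : Set ℂ, D = (fun p : ℝ × ℝ => (⟨p.1, B p.1 - p.2 * (R + B p.1)⟩ : ℂ)) ''
    (Ioo (-R) R ×ˢ Ioo 0 1) := ⟨_, rfl⟩
  obtain ⟨G, hG⟩ : ∃ G : Set ℂ, G = (fun p : ℝ × ℝ => (⟨p.1, p.2⟩ : ℂ)) ''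
    (Ioo 0 R ×ˢ Ioo (-R) R) := ⟨_, rfl⟩
  have cmk : ∀ {f g : ℝ × ℝ → ℝ}, Continuous f → Continuous g →
      Continuous fun p => (⟨f p, g p⟩ : ℂ) := by
    intro f g hf hg
    have : (fun p => (⟨f p, g p⟩ : ℂ)) = fun p => (f p : ℂ) + (g p : ℂ) * I := by
      funext p
      apply Complex.ext <;> simp
    rw [this]
    fun_prop
  have hTc := W.hT.cont
  have hBc := W.hB.cont
  have pU : IsPreconnected U := by
    rw [hU]
    exact (isPreconnected_Ioo.prod isPreconnected_Ioo).image _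
      (cmk continuous_fst (by fun_prop)).continuousOn
  have pD : IsPreconnected D := by
    rw [hD]
    exact (isPreconnected_Ioo.prod isPreconnected_Ioo).image _
      (cmk continuous_fst (by fun_prop)).continuousOn
  have pG : IsPreconnected G := by
    rw [hG]
    exact (isPreconnected_Ioo.prod isPreconnected_Ioo).image _
      (cmk continuous_fst continuous_snd).continuousOn
  have mU : ∀ z : ℂ, z ∈ U ↔ |z.re| < R ∧ z.im < R ∧ T z.re < z.im := by
    intro z
    rw [hU]
    constructor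
    · rintro ⟨⟨x, s⟩, ⟨hx, hs⟩, rfl⟩
      simp only at hx hs ⊢
      have h1 := abs_lt.2 hx
      have h2 := (abs_lt.1 (hTR x h1)).2
      refine ⟨h1, ?_, ?_⟩ <;> nlinarith [hs.1, hs.2]
    · rintro ⟨h1, h2, h3⟩
      have h4 := (abs_lt.1 (hTR _ h1)).2
      have q : 0 < R - T z.re := by linarith
      refine ⟨(z.re, (z.im - T z.re) / (R - T z.re)), ⟨abs_lt.1 h1, ?_, ?_⟩, ?_⟩
      · exact div_pos (by linarith) q
      · rw [div_lt_one q]; linarith
      · apply Complex.ext
        · rfl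
        · simp only
          rw [div_mul_cancel₀ _ q.ne']; ring
  have mD : ∀ z : ℂ, z ∈ D ↔ |z.re| < R ∧ -R < z.im ∧ z.im < B z.re := by
    intro z
    rw [hD]
    constructor
    · rintro ⟨⟨x, s⟩, ⟨hx, hs⟩, rfl⟩
      simp only at hx hs ⊢
      have h1 := abs_lt.2 hx
      have h2 := (abs_lt.1 (hBR x h1)).1
      refine ⟨h1, ?_, ?_⟩ <;> nlinarith [hs.1, hs.2]
    · rintro ⟨h1, h2, h3⟩
      have h4 := (abs_lt.1 (hBR _ h1)).1
      have q : 0 < R + B z.re := by linarith
      refine ⟨(z.re, (B z.re - z.im) / (R + B z.re)), ⟨abs_lt.1 h1, ?_, ?_⟩, ?_⟩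
      · exact div_pos (by linarith) q
      · rw [div_lt_one q]; linarith
      · apply Complex.ext
        · rfl
        · simp only
          rw [div_mul_cancel₀ _ q.ne']; ring
  have mG : ∀ z : ℂ, z ∈ G ↔ 0 < z.re ∧ z.re < R ∧ |z.im| < R := by
    intro z
    rw [hG]
    constructor
    · rintro ⟨⟨x, s⟩, ⟨hx, hs⟩, rfl⟩
      exact ⟨hx.1, hx.2, abs_lt.2 hs⟩
    · rintro ⟨h1, h2, h3⟩
      exact ⟨(z.re, z.im), ⟨⟨h1, h2⟩, abs_lt.1 h3⟩, rfl⟩
  have pUG : IsPreconnected (U ∪ G) := by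
    refine IsPreconnected.union ⟨R / 2, R / 2⟩ ?_ ?_ pU pG
    · rw [mU]
      simp only
      rw [W.T0 (R / 2) (by linarith), abs_of_pos (by linarith)]
      exact ⟨by linarith, by linarith, by linarith⟩
    · rw [mG]
      simp only
      rw [abs_of_pos (by linarith)]
      exact ⟨by linarith, by linarith, by linarith⟩
  have pV : IsPreconnected (U ∪ G ∪ D) := by
    refine IsPreconnected.union ⟨R / 2, -(R / 2)⟩ ?_ ?_ pUG pD
    · right
      rw [mG]
      simp only
      rw [abs_neg, abs_of_pos (by linarith)]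
      exact ⟨by linarith, by linarith, by linarith⟩
    · rw [mD]
      simp only
      rw [W.B0 (R / 2) (by linarith), abs_of_pos (by linarith)]
      exact ⟨by linarith, by linarith, by linarith⟩
  have hne : ∀ z ∈ U ∪ G ∪ D, M z ≠ 0 := by
    intro z hz hz0
    have hS := h0 z hz0
    rcases hz with (hz | hz) | hz
    · obtain ⟨a1, a2, a3⟩ := (mU z).1 hz
      have a4 := (abs_lt.1 (hTR _ a1)).1
      obtain ⟨-, b⟩ := W.loc z hS a1 (abs_lt.2 ⟨by linarith, a2⟩)
      rcases b with b | b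
      · linarith
      · have := W.TB' (x := z.re) (by linarith [(abs_lt.1 a1).1, W.Rr])
        linarith
    · obtain ⟨a1, a2, a3⟩ := (mG z).1 hz
      have := (W.loc z hS (by rw [abs_of_pos a1]; exact a2) a3).1
      linarith
    · obtain ⟨a1, a2, a3⟩ := (mD z).1 hz
      have a4 := (abs_lt.1 (hBR _ a1)).2
      obtain ⟨-, b⟩ := W.loc z hS a1 (abs_lt.2 ⟨a2, by linarith⟩)
      rcases b with b | b
      · have := W.TB' (x := z.re) (by linarith [(abs_lt.1 a1).1, W.Rr])
        linarith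
      · linarith
  obtain ⟨z0, hz0⟩ : (U ∪ G ∪ D).Nonempty := ⟨⟨R / 2, 0⟩, by
    left; right
    rw [mG]
    simp only
    rw [abs_zero]
    exact ⟨by linarith, by linarith, R0⟩⟩
  have mem : ∀ z : ℂ, |z.re| < R → |z.im| < R → (T z.re < z.im ∨ z.im < B z.re) →
      z ∈ U ∪ G ∪ D := by
    intro z h1 h2 h3
    rcases h3 with h3 | h3
    · left; left
      rw [mU]
      exact ⟨h1, (abs_lt.1 h2).2, h3⟩
    · right
      rw [mD]
      exact ⟨h1, (abs_lt.1 h2).1, h3⟩
  rcases lt_or_gt_of_ne (hne z0 hz0) with hs | hs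
  · refine ⟨-1, Or.inr rfl, fun z h1 h2 h3 => ?_⟩
    have hz := mem z h1 h2 h3
    by_contra hcon
    push Not at hcon
    obtain ⟨x, hx, hx0⟩ := pV.intermediate_value hz0 hz hM.continuousOn
      (show (0:ℝ) ∈ Icc _ _ from ⟨hs.le, by linarith⟩)
    exact hne x hx hx0
  · refine ⟨1, Or.inl rfl, fun z h1 h2 h3 => ?_⟩
    have hz := mem z h1 h2 h3
    by_contra hcon
    push Not at hcon
    obtain ⟨x, hx, hx0⟩ := pV.intermediate_value hz hz0 hM.continuousOn
      (show (0:ℝ) ∈ Icc _ _ from ⟨by linarith, hs.le⟩)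
    exact hne x hx hx0

end Pool.Agent.U333.Peg
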